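/-
Project TGX, block A (groups with (P) have few generators): definitions and basic facts on conjugates.
Paper: /team-store/MP_12cf61_al_paper24.md, section 3.
-/
import Pool.Agent.Lib.TGX.Defs

namespace Pool.Agent.Lib.TGX

open Equiv

variable {G : Type} [Group G]

/-- the conjugate `g X g⁻¹` -/
abbrev cj (g : G) (X : Subgroup G) : Subgroup G := X.map (MulAut.conj g).toMonoidHom

theorem mem_cj {g : G} {X : Subgroup G} {x : G} : x ∈ cj g X ↔ g⁻¹ * x * g ∈ X := by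
  constructor
  · rintro ⟨y, hy, rfl⟩
    show g⁻¹ * (g * y * g⁻¹) * g ∈ X
    have : g⁻¹ * (g * y * g⁻¹) * g = y := by group
    rw [this]
    exact hy
  · intro h
    refine ⟨g⁻¹ * x * g, h, ?_⟩
    show g * (g⁻¹ * x * g) * g⁻¹ = x
    group

theorem conj_mem_cj {g : G} {X : Subgroup G} {x : G} (hx : x ∈ X) : g * x * g⁻¹ ∈ cj g X :=
  ⟨x, hx, rfl⟩

theorem cj_one (X : Subgroup G) : cj 1 X = X := by
  ext x
  rw [mem_cj]
  simp

theorem cj_mul (g h : G) (X : Subgroup G) : cj (g * h) X = cj g (cj h X) := by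
  ext x
  rw [mem_cj, mem_cj, mem_cj]
  have : (g * h)⁻¹ * x * (g * h) = h⁻¹ * (g⁻¹ * x * g) * h := by group
  rw [this]

theorem cj_inv_cj (g : G) (X : Subgroup G) : cj g⁻¹ (cj g X) = X := by
  rw [← cj_mul, inv_mul_cancel, cj_one]

theorem cj_cj_inv (g : G) (X : Subgroup G) : cj g (cj g⁻¹ X) = X := by
  rw [← cj_mul, mul_inv_cancel, cj_one]

theorem cj_mono (g : G) {X Y : Subgroup G} (h : X ≤ Y) : cj g X ≤ cj g Y := Subgroup.map_mono h

theorem cj_inj (g : G) {X Y : Subgroup G} (h : cj g X = cj g Y) : X = Y := by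
  rw [← cj_inv_cj g X, h, cj_inv_cj]

theorem card_cj (g : G) (X : Subgroup G) : Nat.card (cj g X) = Nat.card X :=
  Nat.card_congr (X.equivMapOfInjective _ (MulAut.conj g).injective).toEquiv.symm

theorem cj_of_nm {L X : Subgroup G} (h : Nm L X) {g : G} (hg : g ∈ L) : cj g X = X := by
  apply le_antisymm
  · rintro _ ⟨x, hx, rfl⟩
    exact h.2 g hg x hx
  · intro x hx
    rw [mem_cj]
    have := h.2 g⁻¹ (L.inv_mem hg) x hx
    rwa [inv_inv] at this

theorem nm_cj {X Y : Subgroup G} (g : G) (h : Nm X Y) : Nm (cj g X) (cj g Y) := by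
  refine ⟨cj_mono g h.1, ?_⟩
  rintro _ ⟨x, hx, rfl⟩ _ ⟨y, hy, rfl⟩
  refine ⟨x * y * x⁻¹, h.2 x hx y hy, ?_⟩
  show g * (x * y * x⁻¹) * g⁻¹ = g * x * g⁻¹ * (g * y * g⁻¹) * (g * x * g⁻¹)⁻¹
  group

theorem nm_self (X : Subgroup G) : Nm X X :=
  ⟨le_rfl, fun _ hg _ hx => X.mul_mem (X.mul_mem hg hx) (X.inv_mem hg)⟩

theorem nm_inf {X Y Z : Subgroup G} (hY : Nm X Y) (hZ : Nm X Z) : Nm X (Y ⊓ Z) :=
  ⟨inf_le_left.trans hY.1, fun g hg x hx => ⟨hY.2 g hg x hx.1, hZ.2 g hg x hx.2⟩⟩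

/-- the subgroup generated by an invariant family of subgroups of `L` is normal in `L` -/
theorem nm_sSup {L : Subgroup G} {S : Set (Subgroup G)} (hS : ∀ X ∈ S, X ≤ L)
    (hc : ∀ g ∈ L, ∀ X ∈ S, cj g X ∈ S) : Nm L (sSup S) := by
  refine ⟨sSup_le hS, fun g hg x hx => ?_⟩
  have h1 : cj g (sSup S) ≤ sSup S := by
    show (sSup S).map (MulAut.conj g).toMonoidHom ≤ _
    rw [sSup_eq_iSup, Subgroup.map_iSup]
    refine iSup_le fun X => ?_
    rw [Subgroup.map_iSup]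
    exact iSup_le fun hX => le_iSup₂_of_le (cj g X) (hc g hg X hX) le_rfl
  exact h1 (conj_mem_cj hx)

/-- what is needed about the members of an extremal family (paper 3.3, 3.4) -/
structure Mem {Ω : Type} (A D X : Subgroup (Perm Ω)) : Prop where
  le : X ≤ D
  perf : ⁅X, X⁆ = X
  nor : ∀ Y, Nm X Y → Y ≠ X → Y ≤ A
  faith : ∀ ω : Ω, ∀ a ∈ X, (∀ x ∈ X, a (x ω) = x ω) → a = 1

end Pool.Agent.Lib.TGX
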