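/-
TGX A.CommSup. Commutators of generated subgroups modulo a central subgroup.
PROOF. Let `P = sSup S`. (0) `a y = y a` for `a ∈ A`, `y ∈ P`: `P ≤ Subgroup.centralizer A` by `sSup_le` and `cen`. (1) Fix
`x ∈ X ∈ S`. For all `y ∈ P`: `x y x⁻¹ y⁻¹ ∈ A`, by induction (`Subgroup.sSup_eq_iSup`/`Subgroup.iSup_induction`, or: the set
`{y ∈ P | x y x⁻¹ y⁻¹ ∈ A}` is a subgroup containing all `Y ∈ S`): `x (y y') x⁻¹ (y y')⁻¹ = (x y x⁻¹ y⁻¹) * (y (x y' x⁻¹ y'⁻¹) y⁻¹)`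
and the second factor equals `x y' x⁻¹ y'⁻¹ ∈ A` by (0) (`y ∈ P`); `x y⁻¹ x⁻¹ y = y⁻¹ (x y x⁻¹ y⁻¹)⁻¹ y = (x y x⁻¹ y⁻¹)⁻¹ ∈ A`.
(2) The same induction in `x` for fixed `y ∈ P`: `{x ∈ P | x y x⁻¹ y⁻¹ ∈ A}` is a subgroup:
`(x x') y (x x')⁻¹ y⁻¹ = x (x' y x'⁻¹ y⁻¹) x⁻¹ * (x y x⁻¹ y⁻¹)`, `x⁻¹ y x y⁻¹ = x⁻¹ (x y x⁻¹ y⁻¹)⁻¹ x`.
-/
import Pool.Agent.Lib.TGX.A.DefsA

namespace Pool.Agent.Lib.TGX

open Equiv

private theorem cs_conj {G : Type} [Group G] {c p : G} (h : c * p = p * c) :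
    p * c * p⁻¹ = c := by
  rw [← h, mul_inv_cancel_right]

/-- elements `y` of `P` whose commutator with `x` is in `A` -/
private def csL {G : Type} [Group G] (A P : Subgroup G)
    (hc : ∀ p ∈ P, ∀ a ∈ A, a * p = p * a) (x : G) : Subgroup G where
  carrier := {y | y ∈ P ∧ x * y * x⁻¹ * y⁻¹ ∈ A}
  mul_mem' := by
    rintro y z ⟨hy, hy'⟩ ⟨hz, hz'⟩
    refine ⟨P.mul_mem hy hz, ?_⟩
    have e : x * (y * z) * x⁻¹ * (y * z)⁻¹ =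
        (x * y * x⁻¹ * y⁻¹) * (y * (x * z * x⁻¹ * z⁻¹) * y⁻¹) := by group
    rw [e, cs_conj (hc y hy _ hz')]
    exact A.mul_mem hy' hz'
  one_mem' := by
    refine ⟨P.one_mem, ?_⟩
    have e : x * 1 * x⁻¹ * 1⁻¹ = 1 := by group
    rw [e]
    exact A.one_mem
  inv_mem' := by
    rintro y ⟨hy, hy'⟩
    refine ⟨P.inv_mem hy, ?_⟩
    have e : x * y⁻¹ * x⁻¹ * y⁻¹⁻¹ = y⁻¹ * (x * y * x⁻¹ * y⁻¹)⁻¹ * y⁻¹⁻¹ := by group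
    rw [e, cs_conj (hc _ (P.inv_mem hy) _ (A.inv_mem hy'))]
    exact A.inv_mem hy'

/-- elements `x` of `P` whose commutator with `y` is in `A` -/
private def csR {G : Type} [Group G] (A P : Subgroup G)
    (hc : ∀ p ∈ P, ∀ a ∈ A, a * p = p * a) (y : G) : Subgroup G where
  carrier := {x | x ∈ P ∧ x * y * x⁻¹ * y⁻¹ ∈ A}
  mul_mem' := by
    rintro x z ⟨hx, hx'⟩ ⟨hz, hz'⟩
    refine ⟨P.mul_mem hx hz, ?_⟩
    have e : x * z * y * (x * z)⁻¹ * y⁻¹ =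
        (x * (z * y * z⁻¹ * y⁻¹) * x⁻¹) * (x * y * x⁻¹ * y⁻¹) := by group
    rw [e, cs_conj (hc x hx _ hz')]
    exact A.mul_mem hz' hx'
  one_mem' := by
    refine ⟨P.one_mem, ?_⟩
    have e : 1 * y * 1⁻¹ * y⁻¹ = 1 := by group
    rw [e]
    exact A.one_mem
  inv_mem' := by
    rintro x ⟨hx, hx'⟩
    refine ⟨P.inv_mem hx, ?_⟩
    have e : x⁻¹ * y * x⁻¹⁻¹ * y⁻¹ = x⁻¹ * (x * y * x⁻¹ * y⁻¹)⁻¹ * x⁻¹⁻¹ := by group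
    rw [e, cs_conj (hc _ (P.inv_mem hx) _ (A.inv_mem hx'))]
    exact A.inv_mem hx'

theorem comm_sSup {G : Type} [Group G] (A : Subgroup G) (S : Set (Subgroup G))
    (cen : ∀ Y ∈ S, ∀ a ∈ A, ∀ y ∈ Y, a * y = y * a)
    (com : ∀ X ∈ S, ∀ Y ∈ S, ∀ x ∈ X, ∀ y ∈ Y, x * y * x⁻¹ * y⁻¹ ∈ A) :
    ∀ x ∈ sSup S, ∀ y ∈ sSup S, x * y * x⁻¹ * y⁻¹ ∈ A := by
  have hc : ∀ p ∈ sSup S, ∀ a ∈ A, a * p = p * a := by
    have h : sSup S ≤ Subgroup.centralizer (A : Set G) := by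
      refine sSup_le fun Y hY y hy => ?_
      rw [Subgroup.mem_centralizer_iff]
      exact fun a ha => cen Y hY a ha y hy
    intro p hp a ha
    exact Subgroup.mem_centralizer_iff.1 (h hp) a ha
  have h1 : ∀ X ∈ S, ∀ x ∈ X, ∀ y ∈ sSup S, x * y * x⁻¹ * y⁻¹ ∈ A := by
    intro X hX x hx y hy
    have h : sSup S ≤ csL A (sSup S) hc x :=
      sSup_le fun Y hY y hy => ⟨le_sSup hY hy, com X hX Y hY x hx y hy⟩
    exact (h hy).2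
  intro x hx y hy
  have h : sSup S ≤ csR A (sSup S) hc y :=
    sSup_le fun X hX x hx => ⟨le_sSup hX hx, h1 X hX x hx y hy⟩
  exact (h hx).2

end Pool.Agent.Lib.TGX
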