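/-
TGX A.DD. The subgroup `D = L ∩ C(U)` (paper 3.2).
PROOF. `nA`: given. `nD`: for `g ∈ L`, `d ∈ D`, `u ∈ U`: `g d g⁻¹ ∈ L`, and it commutes with `u = g u' g⁻¹`, `u' = g⁻¹ u g ∈ U`.
`le`: `A ≤ L` and `cen`. `cen`: `a ∈ A ≤ U`, `d` in the centralizer of `U`. `max`: let `Nm L M`, `M ≤ D`, `[M, M] ≤ A`. Put
`V = sSup {U, M}`. `Nm L V` by `nm_sSup` (`cj_of_nm` for `U` and `M`). Elements of `A` commute with elements of `V`: `V` is
contained in the centralizer of `A` (`U`: `cen`; `M`: `A ≤ U` and `M ≤ D`). `[V, V] ≤ A` by `comm_sSup` (A.CommSup) for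
`S = {U, M}`: pairs `U, U`: `com`; `M, M`: hypothesis; `U, M` and `M, U`: the elements commute, the commutator is `1`.
So `V ≤ U` by `mx`, `M ≤ U`; an element `x ∈ M` commutes with all of `U` (`M ≤ D`), so `x ∈ A` by `cU`.
-/
import Pool.Agent.Lib.TGX.A.CommSup

namespace Pool.Agent.Lib.TGX

open Equiv

theorem ad_of_U {G : Type} [Group G] (L A U : Subgroup G) (hA : Nm L A) (hU : Nm L U) (hAU : A ≤ U)
    (cen : ∀ a ∈ A, ∀ u ∈ U, a * u = u * a)
    (com : ∀ x ∈ U, ∀ y ∈ U, x * y * x⁻¹ * y⁻¹ ∈ A)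
    (cU : ∀ u ∈ U, (∀ v ∈ U, u * v = v * u) → u ∈ A)
    (mx : ∀ V, Nm L V → U ≤ V → (∀ a ∈ A, ∀ v ∈ V, a * v = v * a) →
      (∀ x ∈ V, ∀ y ∈ V, x * y * x⁻¹ * y⁻¹ ∈ A) → V ≤ U) :
    AD L A (L ⊓ Subgroup.centralizer (U : Set G)) := by
  have hD : ∀ d, d ∈ L ⊓ Subgroup.centralizer (U : Set G) ↔ d ∈ L ∧ ∀ u ∈ U, u * d = d * u := by
    intro d
    rw [Subgroup.mem_inf, Subgroup.mem_centralizer_iff]
    rfl
  refine ⟨hA, ⟨inf_le_left, fun g hg d hd => ?_⟩, fun a ha => ?_, fun a ha d hd => ?_, ?_⟩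
  · rw [hD] at hd ⊢
    refine ⟨L.mul_mem (L.mul_mem hg hd.1) (L.inv_mem hg), fun u hu => ?_⟩
    have h1 : g⁻¹ * u * g ∈ U := by
      have := hU.2 g⁻¹ (L.inv_mem hg) u hu
      rwa [inv_inv] at this
    have h2 := hd.2 _ h1
    calc u * (g * d * g⁻¹) = g * ((g⁻¹ * u * g) * d) * g⁻¹ := by group
      _ = g * (d * (g⁻¹ * u * g)) * g⁻¹ := by rw [h2]
      _ = g * d * g⁻¹ * u := by group
  · rw [hD]
    exact ⟨hA.1 ha, fun u hu => (cen a ha u hu).symm⟩
  · rw [hD] at hd
    exact hd.2 a (hAU ha)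
  · intro M hM hMD hMM
    have hMD' : ∀ x ∈ M, x ∈ L ∧ ∀ u ∈ U, u * x = x * u := fun x hx => (hD x).1 (hMD hx)
    have cenS : ∀ Y ∈ ({U, M} : Set (Subgroup G)), ∀ a ∈ A, ∀ y ∈ Y, a * y = y * a := by
      intro Y hY a ha y hy
      rcases hY with rfl | hY
      · exact cen a ha y hy
      · rw [Set.mem_singleton_iff] at hY
        subst hY
        exact (hMD' y hy).2 a (hAU ha)
    have key : Nm L (sSup ({U, M} : Set (Subgroup G))) := by
      refine nm_sSup ?_ ?_
      · intro X hX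
        rcases hX with rfl | hX
        · exact hU.1
        · rw [Set.mem_singleton_iff] at hX
          subst hX
          exact hM.1
      · intro g hg X hX
        rcases hX with rfl | hX
        · rw [cj_of_nm hU hg]
          exact Or.inl rfl
        · rw [Set.mem_singleton_iff] at hX
          subst hX
          rw [cj_of_nm hM hg]
          exact Or.inr rfl
    have hUV : U ≤ sSup ({U, M} : Set (Subgroup G)) := le_sSup (Or.inl rfl)
    have hMV : M ≤ sSup ({U, M} : Set (Subgroup G)) := le_sSup (Or.inr rfl)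
    have hVcen : ∀ a ∈ A, ∀ v ∈ sSup ({U, M} : Set (Subgroup G)), a * v = v * a := by
      intro a ha v hv
      have h1 : sSup ({U, M} : Set (Subgroup G)) ≤ Subgroup.centralizer (A : Set G) := by
        refine sSup_le fun Y hY y hy => ?_
        rw [Subgroup.mem_centralizer_iff]
        exact fun b hb => cenS Y hY b hb y hy
      exact Subgroup.mem_centralizer_iff.1 (h1 hv) a ha
    have hVcom : ∀ x ∈ sSup ({U, M} : Set (Subgroup G)), ∀ y ∈ sSup ({U, M} : Set (Subgroup G)),
        x * y * x⁻¹ * y⁻¹ ∈ A := by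
      refine comm_sSup A {U, M} cenS ?_
      intro X hX Y hY x hx y hy
      have one : x * y = y * x → x * y * x⁻¹ * y⁻¹ ∈ A := fun h => by
        rw [h, mul_assoc y x, mul_inv_cancel, mul_one, mul_inv_cancel]
        exact A.one_mem
      rcases hX with rfl | hX
      · rcases hY with rfl | hY
        · exact com x hx y hy
        · rw [Set.mem_singleton_iff] at hY
          subst hY
          exact one ((hMD' y hy).2 x hx)
      · rw [Set.mem_singleton_iff] at hX
        subst hX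
        rcases hY with rfl | hY
        · exact one ((hMD' x hx).2 y hy).symm
        · rw [Set.mem_singleton_iff] at hY
          subst hY
          exact hMM x hx y hy
    have hVU := mx _ key hUV hVcen hVcom
    intro x hx
    exact cU x (hVU (hMV hx)) fun v hv => ((hMD' x hx).2 v hv).symm

end Pool.Agent.Lib.TGX
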