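/-
TGX A.MaxU. The subgroups `A` (maximal abelian normal) and `U` (maximal normal of class 2 over `A`) of `L` (paper 3.2).
PROOF. The set of abelian `B` with `Nm L B` is finite and contains `⊥`; let `A` be a member of largest order
(`Set.exists_max_image` or `Finite.exists_max`). The set of the `V` with `Nm L V`, `A ≤ V`, elements of `A` commute with elements
of `V`, `[V, V] ≤ A` contains `A` (commutators of `A` are `1`); let `U` be a member of largest order. If `V` is another one with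
`U ≤ V` then `Nat.card V ≤ Nat.card U`, so `V = U` (`Subgroup.eq_of_le_of_card_ge`); `A ≤ V` follows from `U ≤ V`.
The centre condition: `Z = {u ∈ U | ∀ v ∈ U, u v = v u}` (`= U ⊓ Subgroup.centralizer U`) is abelian, contains `A`, and
`Nm L Z`: for `g ∈ L`, `u ∈ Z`, `v ∈ U`: `g u g⁻¹ ∈ U`, and `v = g v' g⁻¹` with `v' = g⁻¹ v g ∈ U`. So
`Nat.card Z ≤ Nat.card A` and `Z = A`.
-/
import Pool.Agent.Lib.TGX.A.DefsA

namespace Pool.Agent.Lib.TGX

open Equiv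

private theorem exists_max_sub {G : Type} [Group G] [Finite G] (P : Subgroup G → Prop)
    (h0 : ∃ B, P B) : ∃ A, P A ∧ ∀ B, P B → Nat.card B ≤ Nat.card A := by
  have hf : ({B | P B} : Set (Subgroup G)).Finite := Set.toFinite _
  obtain ⟨A, hA, hmax⟩ := Set.exists_max_image {B | P B} (fun B => Nat.card B) hf h0
  exact ⟨A, hA, fun B hB => hmax B hB⟩

private theorem mem_ic {G : Type} [Group G] (U : Subgroup G) (x : G) :
    x ∈ U ⊓ Subgroup.centralizer (U : Set G) ↔ x ∈ U ∧ ∀ v ∈ U, v * x = x * v := by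
  rw [Subgroup.mem_inf, Subgroup.mem_centralizer_iff]
  rfl

private theorem nm_cent {G : Type} [Group G] (L U : Subgroup G) (hU : Nm L U) :
    Nm L (U ⊓ Subgroup.centralizer (U : Set G)) := by
  refine ⟨inf_le_left.trans hU.1, fun g hg x hx => ?_⟩
  rw [mem_ic] at hx ⊢
  refine ⟨hU.2 g hg x hx.1, fun v hv => ?_⟩
  have h1 : g⁻¹ * v * g ∈ U := by
    have := hU.2 g⁻¹ (L.inv_mem hg) v hv
    rwa [inv_inv] at this
  have h2 := hx.2 _ h1
  calc v * (g * x * g⁻¹) = g * (g⁻¹ * v * g * x) * g⁻¹ := by group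
    _ = g * (x * (g⁻¹ * v * g)) * g⁻¹ := by rw [h2]
    _ = g * x * g⁻¹ * v := by group


theorem exists_AU {G : Type} [Group G] [Finite G] (L : Subgroup G) : ∃ A U : Subgroup G,
    Nm L A ∧ (∀ a ∈ A, ∀ b ∈ A, a * b = b * a) ∧ Nm L U ∧ A ≤ U ∧
    (∀ a ∈ A, ∀ u ∈ U, a * u = u * a) ∧
    (∀ x ∈ U, ∀ y ∈ U, x * y * x⁻¹ * y⁻¹ ∈ A) ∧
    (∀ u ∈ U, (∀ v ∈ U, u * v = v * u) → u ∈ A) ∧
    (∀ V, Nm L V → U ≤ V → (∀ a ∈ A, ∀ v ∈ V, a * v = v * a) →
      (∀ x ∈ V, ∀ y ∈ V, x * y * x⁻¹ * y⁻¹ ∈ A) → V ≤ U) := by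
  obtain ⟨A, ⟨hA1, hA2⟩, hAmax⟩ := exists_max_sub
    (fun B : Subgroup G => Nm L B ∧ ∀ a ∈ B, ∀ b ∈ B, a * b = b * a)
    ⟨⊥, ⟨bot_le, fun g _ x hx => by
      rw [Subgroup.mem_bot] at hx ⊢
      rw [hx]
      group⟩, fun a ha b hb => by
      rw [Subgroup.mem_bot] at ha hb
      rw [ha, hb]⟩
  obtain ⟨U, ⟨hU1, hAU, hU2, hU3⟩, hUmax⟩ := exists_max_sub
    (fun V : Subgroup G => Nm L V ∧ A ≤ V ∧ (∀ a ∈ A, ∀ u ∈ V, a * u = u * a) ∧
      ∀ x ∈ V, ∀ y ∈ V, x * y * x⁻¹ * y⁻¹ ∈ A)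
    ⟨A, hA1, le_rfl, hA2, fun x hx y hy =>
      A.mul_mem (A.mul_mem (A.mul_mem hx hy) (A.inv_mem hx)) (A.inv_mem hy)⟩
  refine ⟨A, U, hA1, hA2, hU1, hAU, hU2, hU3, ?_, ?_⟩
  · have hAZ : A ≤ U ⊓ Subgroup.centralizer (U : Set G) := by
      intro a ha
      rw [mem_ic]
      exact ⟨hAU ha, fun u hu => (hU2 a ha u hu).symm⟩
    have hZ : Nat.card (U ⊓ Subgroup.centralizer (U : Set G) : Subgroup G) ≤ Nat.card A := by
      refine hAmax _ ⟨nm_cent L U hU1, fun a ha b hb => ?_⟩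
      rw [mem_ic] at ha hb
      exact hb.2 a ha.1
    have heq := Subgroup.eq_of_le_of_card_ge hAZ hZ
    intro u hu huc
    rw [heq, mem_ic]
    exact ⟨hu, fun v hv => (huc v hv).symm⟩
  · intro V hV hUV hV2 hV3
    have h1 := hUmax V ⟨hV, hAU.trans hUV, hV2, hV3⟩
    exact (Subgroup.eq_of_le_of_card_ge hUV h1).ge

end Pool.Agent.Lib.TGX
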