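/-
TGX A.GFib. Counting the elements of a subgroup `D` by a map to a finite type whose fibres are
contained in cosets of the subgroup `K`.
PROOF. `r b` = a chosen element of `D` with `f (r b) = b` if there is one. The map
`g ↦ (f g, (r (f g))⁻¹ * g)` from `D` to `β × K` is injective.
-/
import Pool.Agent.Lib.TGX.Defs

namespace Pool.Agent.Lib.TGX

theorem card_le_fib {G : Type} [Group G] [Finite G] {β : Type} [Finite β] (D K : Subgroup G)
    (f : G → β) (h : ∀ g ∈ D, ∀ g' ∈ D, f g = f g' → g⁻¹ * g' ∈ K) :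
    Nat.card D ≤ Nat.card β * Nat.card K := by
  classical
  let r : β → G := fun b => if hb : ∃ r ∈ D, f r = b then hb.choose else 1
  have hr : ∀ g ∈ D, r (f g) ∈ D ∧ f (r (f g)) = f g := by
    intro g hg
    have hb : ∃ r ∈ D, f r = f g := ⟨g, hg, rfl⟩
    simp only [r, dif_pos hb]
    exact hb.choose_spec
  let φ : D → β × K := fun g => (f g, ⟨(r (f g))⁻¹ * g, h _ (hr g g.2).1 _ g.2 (hr g g.2).2⟩)
  have hφ : Function.Injective φ := by
    intro g g' hgg
    have h1 : f g = f g' := congrArg Prod.fst hgg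
    have h2 : (r (f g))⁻¹ * (g : G) = (r (f g'))⁻¹ * g' :=
      congrArg (fun p : β × K => ((p.2 : K) : G)) hgg
    rw [h1] at h2
    exact Subtype.ext (mul_left_cancel h2)
  have h3 := Nat.card_le_card_of_injective φ hφ
  rwa [Nat.card_prod] at h3

end Pool.Agent.Lib.TGX
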