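/-
TGX A.GenCard. Generators from indices.
PROOF of `gen_of_card_lt`, induction on `d` (for all `K`). By Lagrange `Nat.card K ∣ Nat.card H`. If `K = H` take `t = ∅`.
`d = 0`: `Nat.card H < 2 * Nat.card K`, so `Nat.card H = Nat.card K` and `K = H`. Step, `K ≠ H`: take `g ∈ H`, `g ∉ K`,
`K' = K ⊔ closure {g} ≤ H`, `K < K'`, so `2 * Nat.card K ≤ Nat.card K'` (divisibility) and
`Nat.card H < 2 ^ (d + 1) * Nat.card K'`; the induction hypothesis gives `t'` for `K'`; take `t = insert g t'`.
`gen_of_card`: `2 ^ d * Nat.card K < 2 ^ (d + 1) * Nat.card K`. `gen_card`: `K = ⊥`, `Nat.lt_pow_succ_log_self`.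
-/
import Pool.Agent.Lib.TGX.A.DefsA

namespace Pool.Agent.Lib.TGX

open Equiv

variable {G : Type} [Group G] [Finite G]

theorem gen_of_card_lt (K H : Subgroup G) (h : K ≤ H) (d : ℕ)
    (hd : Nat.card H < 2 ^ (d + 1) * Nat.card K) : Gen K H d := by
  classical
  induction d generalizing K with
  | zero =>
    have h1 : K = H := by
      obtain ⟨c, hc⟩ := Subgroup.card_dvd_of_le h
      refine Subgroup.eq_of_le_of_card_ge h ?_
      have hc2 : c ≤ 1 := by
        by_contra hne
        push Not at hne
        have h2 : Nat.card K * 2 ≤ Nat.card K * c := Nat.mul_le_mul_left _ hne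
        omega
      calc Nat.card H = Nat.card K * c := hc
        _ ≤ Nat.card K * 1 := Nat.mul_le_mul_left _ hc2
        _ = Nat.card K := mul_one _
    exact ⟨∅, by simp, by simp [h1]⟩
  | succ d ih =>
    by_cases hKH : K = H
    · exact ⟨∅, by simp, by simp [hKH]⟩
    · obtain ⟨g, hgH, hgK⟩ := SetLike.exists_of_lt (lt_of_le_of_ne h hKH)
      have h1 : K ⊔ Subgroup.closure {g} ≤ H :=
        sup_le h ((Subgroup.closure_le _).2 (Set.singleton_subset_iff.2 hgH))
      have h2 : 2 * Nat.card K ≤ Nat.card (K ⊔ Subgroup.closure {g} : Subgroup G) := by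
        obtain ⟨c, hc⟩ := Subgroup.card_dvd_of_le
          (le_sup_left : K ≤ K ⊔ Subgroup.closure {g})
        have hpos : 0 < Nat.card (K ⊔ Subgroup.closure {g} : Subgroup G) := Nat.card_pos
        have hc2 : 2 ≤ c := by
          by_contra hne
          have hc3 : c ≤ 1 := by omega
          have h3 : K = K ⊔ Subgroup.closure {g} := by
            refine Subgroup.eq_of_le_of_card_ge le_sup_left ?_
            calc _ = Nat.card K * c := hc
              _ ≤ Nat.card K * 1 := Nat.mul_le_mul_left _ hc3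
              _ = Nat.card K := mul_one _
          apply hgK
          rw [h3]
          exact (le_sup_right : Subgroup.closure {g} ≤ K ⊔ Subgroup.closure {g})
            (Subgroup.subset_closure rfl)
        rw [hc, mul_comm 2]
        exact Nat.mul_le_mul_left _ hc2
      obtain ⟨t, ht, ht'⟩ := ih (K ⊔ Subgroup.closure {g}) h1 (by
        calc Nat.card H < 2 ^ (d + 1 + 1) * Nat.card K := hd
          _ = 2 ^ (d + 1) * (2 * Nat.card K) := by ring
          _ ≤ _ := Nat.mul_le_mul_left _ h2)
      refine ⟨insert g t, (Finset.card_insert_le _ _).trans (by omega), ?_⟩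
      rw [Finset.coe_insert, Set.insert_eq, Subgroup.closure_union, ← sup_assoc]
      exact ht'

theorem gen_of_card (K H : Subgroup G) (h : K ≤ H) (d : ℕ)
    (hd : Nat.card H ≤ 2 ^ d * Nat.card K) : Gen K H d := by
  refine gen_of_card_lt K H h d (lt_of_le_of_lt hd ?_)
  have h1 : 0 < Nat.card K := Nat.card_pos
  exact Nat.mul_lt_mul_of_pos_right (Nat.pow_lt_pow_right (by norm_num) (Nat.lt_succ_self d)) h1

theorem gen_card (H : Subgroup G) :
    ∃ t : Finset G, t.card ≤ Nat.log 2 (Nat.card H) ∧ Subgroup.closure (t : Set G) = H := by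
  obtain ⟨t, ht, ht'⟩ := gen_of_card_lt (⊥ : Subgroup G) H bot_le (Nat.log 2 (Nat.card H)) (by
    rw [Subgroup.card_bot, mul_one]
    exact Nat.lt_pow_succ_log_self (by norm_num) _)
  exact ⟨t, ht, by rwa [bot_sup_eq] at ht'⟩

end Pool.Agent.Lib.TGX
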