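/-
TGX A.CentIdx. Index of a centralizer.
PROOF. By `gen_card` (A.GenCard) `X` is generated by a finite set `t` with `t.card ≤ Nat.log 2 (Nat.card X)`. Apply `card_le_fib`
(A.GFib) with `β = t → G` restricted to values in `X`, that is `β = t → X` and, for `h ∈ H`, `f h = (s ↦ h * s * h⁻¹)` (outside `H`
put `f h = 1`): if `f h = f h'` then `h⁻¹ * h'` commutes with all `s ∈ t`, so with `closure t = X` (`Subgroup.closure_le` with the
centralizer), so `h⁻¹ * h' ∈ C` by `hC`. `Nat.card (t → X) = Nat.card X ^ t.card ≤ Nat.card X ^ Nat.log 2 (Nat.card X)` as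
`Nat.card X ≥ 1`.
-/
import Pool.Agent.Lib.TGX.A.GenCard
import Pool.Agent.Lib.TGX.A.GFib

namespace Pool.Agent.Lib.TGX

open Equiv

variable {G : Type} [Group G] [Finite G]

theorem card_le_of_cent (H X C : Subgroup G) (hn : ∀ h ∈ H, ∀ x ∈ X, h * x * h⁻¹ ∈ X)
    (hC : ∀ h ∈ H, (∀ x ∈ X, h * x = x * h) → h ∈ C) :
    Nat.card H ≤ Nat.card X ^ Nat.log 2 (Nat.card X) * Nat.card C := by
  classical
  obtain ⟨t, ht, hcl⟩ := gen_card X
  have htX : ∀ s : t, (s : G) ∈ X := fun s => by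
    have h1 : (s : G) ∈ Subgroup.closure (t : Set G) := Subgroup.subset_closure (Finset.mem_coe.2 s.2)
    rwa [hcl] at h1
  have key := card_le_fib H C
    (fun (h : G) (s : t) => if hh : h ∈ H then (⟨h * s * h⁻¹, hn h hh s (htX s)⟩ : X) else 1) (by
    intro g hg g' hg' hff
    refine hC (g⁻¹ * g') (H.mul_mem (H.inv_mem hg) hg') ?_
    have h1 : ∀ s ∈ t, g * s * g⁻¹ = g' * s * g'⁻¹ := by
      intro s hs
      have h2 := congrFun hff ⟨s, hs⟩
      simp only [dif_pos hg, dif_pos hg'] at h2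
      exact congrArg Subtype.val h2
    have h2 : X ≤ Subgroup.centralizer {g⁻¹ * g'} := by
      rw [← hcl, Subgroup.closure_le]
      intro s hs
      rw [SetLike.mem_coe, Subgroup.mem_centralizer_singleton_iff]
      have h3 := h1 s (Finset.mem_coe.1 hs)
      have h4 : s = g⁻¹ * (g * s * g⁻¹) * g := by group
      calc s * (g⁻¹ * g') = (g⁻¹ * (g * s * g⁻¹) * g) * (g⁻¹ * g') := by rw [← h4]
        _ = (g⁻¹ * (g' * s * g'⁻¹) * g) * (g⁻¹ * g') := by rw [h3]
        _ = g⁻¹ * g' * s := by group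
    intro x hx
    exact (Subgroup.mem_centralizer_singleton_iff.1 (h2 hx)).symm)
  have hc : Nat.card (t → X) = Nat.card X ^ t.card := by
    rw [Nat.card_fun, Nat.card_eq_fintype_card (α := t), Fintype.card_coe]
  rw [hc] at key
  refine key.trans (Nat.mul_le_mul_right _ ?_)
  exact Nat.pow_le_pow_right Nat.card_pos ht

end Pool.Agent.Lib.TGX
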