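/-
TGX A.Fam2. Orbits of a normal subgroup.
PROOF of `orb_double`: let `O = orbS Z ω`, `O' = orbS Z (g ω)`. Disjoint: `z ω = z' (g ω)` implies `g ω = (z'⁻¹ * z) ω ∈ O`.
`O' = g '' O`: `z (g ω) = g ((g⁻¹ * z * g) ω)` and `g⁻¹ * z * g ∈ Z` (`hn` for `g⁻¹`); conversely `g (z ω) = (g * z * g⁻¹) (g ω)`.
So `O'.ncard = O.ncard` (`Set.ncard_image_of_injective`), and `O ∪ O' ⊆ orbS W ω` (`Z ≤ W`, `g ∈ W`).
`ncard_le`: `Set.ncard_le_card`, or `Set.ncard_le_ncard (Set.subset_univ _)`. `ncard_pos`: `ω ∈ orbS Z ω`.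
`card_semi`: the map `R → Ω`, `r ↦ r ω` is injective: `r ω = r' ω` implies `(r⁻¹ * r') ω = ω`.
-/
import Pool.Agent.Lib.TGX.A.DefsA

namespace Pool.Agent.Lib.TGX

open Equiv

/-- the orbit of `ω` -/
def orbS {Ω : Type} (Z : Subgroup (Perm Ω)) (ω : Ω) : Set Ω := {y | ∃ z ∈ Z, z ω = y}

variable {Ω : Type} [Fintype Ω]

theorem orb_double (Z W : Subgroup (Perm Ω)) (hZ : Z ≤ W) (hn : ∀ g ∈ W, ∀ z ∈ Z, g * z * g⁻¹ ∈ Z)
    (ω : Ω) (g : Perm Ω) (hg : g ∈ W) (hgω : g ω ∉ orbS Z ω) :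
    2 * (orbS Z ω).ncard ≤ (orbS W ω).ncard := by
  have himg : orbS Z (g ω) = (fun x => g x) '' orbS Z ω := by
    ext y
    constructor
    · rintro ⟨z, hz, rfl⟩
      refine ⟨(g⁻¹ * z * g) ω, ⟨g⁻¹ * z * g, ?_, rfl⟩, ?_⟩
      · have := hn g⁻¹ (W.inv_mem hg) z hz
        rwa [inv_inv] at this
      · show g ((g⁻¹ * z * g) ω) = z (g ω)
        rw [← Perm.mul_apply, ← Perm.mul_apply]
        congr 1
        group
    · rintro ⟨_, ⟨z, hz, rfl⟩, rfl⟩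
      refine ⟨g * z * g⁻¹, hn g hg z hz, ?_⟩
      show (g * z * g⁻¹) (g ω) = g (z ω)
      rw [← Perm.mul_apply, ← Perm.mul_apply]
      congr 1
      group
  have hcard : (orbS Z (g ω)).ncard = (orbS Z ω).ncard := by
    rw [himg]
    exact Set.ncard_image_of_injective _ g.injective
  have hdis : Disjoint (orbS Z ω) (orbS Z (g ω)) := by
    rw [Set.disjoint_left]
    rintro y ⟨z, hz, rfl⟩ ⟨z', hz', h⟩
    apply hgω
    refine ⟨z'⁻¹ * z, Z.mul_mem (Z.inv_mem hz') hz, ?_⟩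
    rw [Perm.mul_apply, ← h, ← Perm.mul_apply, inv_mul_cancel, Perm.one_apply]
  have hsub : orbS Z ω ∪ orbS Z (g ω) ⊆ orbS W ω := by
    rintro y (⟨z, hz, rfl⟩ | ⟨z, hz, rfl⟩)
    · exact ⟨z, hZ hz, rfl⟩
    · exact ⟨z * g, W.mul_mem (hZ hz) hg, rfl⟩
  have h1 := Set.ncard_le_ncard hsub (Set.toFinite _)
  rw [Set.ncard_union_eq hdis (Set.toFinite _) (Set.toFinite _), hcard] at h1
  omega

theorem orbS_ncard_le (Z : Subgroup (Perm Ω)) (ω : Ω) : (orbS Z ω).ncard ≤ Fintype.card Ω := by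
  rw [← Nat.card_eq_fintype_card, ← Set.ncard_univ]
  exact Set.ncard_le_ncard (Set.subset_univ _) (Set.toFinite _)

theorem orbS_ncard_pos (Z : Subgroup (Perm Ω)) (ω : Ω) : 1 ≤ (orbS Z ω).ncard := by
  have h : (orbS Z ω).Nonempty := ⟨ω, 1, Z.one_mem, rfl⟩
  exact (Set.ncard_pos (Set.toFinite _)).2 h

theorem card_semi (R : Subgroup (Perm Ω)) (ω : Ω) (h : ∀ r ∈ R, r ω = ω → r = 1) :
    Nat.card R ≤ Fintype.card Ω := by
  rw [← Nat.card_eq_fintype_card]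
  refine Nat.card_le_card_of_injective (fun r : R => (r : Perm Ω) ω) ?_
  intro r r' hrr
  have h1 : ((r'⁻¹ * r : R) : Perm Ω) = 1 := by
    apply h _ (r'⁻¹ * r : R).2
    show ((r' : Perm Ω)⁻¹ * (r : Perm Ω)) ω = ω
    have h2 : (r : Perm Ω) ω = (r' : Perm Ω) ω := hrr
    rw [Perm.mul_apply, h2, ← Perm.mul_apply, inv_mul_cancel, Perm.one_apply]
  have h2 : (r'⁻¹ * r : R) = 1 := Subtype.ext h1
  exact (inv_mul_eq_one.1 h2).symm

end Pool.Agent.Lib.TGX
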