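/-
TGX A.UCard. The order of `U` (paper 3.2).
PROOF. Let `m = Fintype.card Ω`, `l = lg m = Nat.log 2 m + 1`, `m < 2 ^ l` (`lt_lg`); fix `ω : Ω`. `Nat.card A ≤ m` (`card_semi`).
`B = {u ∈ U | u ω = ω}` (a subgroup). `Nat.card U ≤ m * Nat.card B` (`card_le_fib` with `f u = u ω`). `B` is abelian: for
`b, c ∈ B` the commutator is in `A` (`com`) and fixes `ω`, so it is `1` (`sr`). `Nat.card U ≤ m * Nat.card B < 2 ^ l * Nat.card B`,
so by `gen_of_card_lt` (with `d = Nat.log 2 m`, `d + 1 = l`) there is `t` with `t.card ≤ Nat.log 2 m` and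
`B ⊔ closure t = U`. The map `B → (t → A)`, `b ↦ (s ↦ b * s * b⁻¹ * s⁻¹)` (in `A` by `com`) is injective: if `b, c` have the same
image then `c⁻¹ * b` commutes with every `s ∈ t` and with `B` (abelian), so with `U = B ⊔ closure t` (centralizer), so it is in `A`
by `cU`, and it fixes `ω`, so it is `1`. Hence `Nat.card B ≤ Nat.card A ^ t.card ≤ (2 ^ l) ^ (l - 1)`
(`Nat.log 2 m = l - 1`, `Nat.card A ≥ 1`) and `Nat.card U ≤ 2 ^ l * 2 ^ (l * (l - 1)) = 2 ^ (l ^ 2) ≤ 2 ^ (2 * l ^ 2)`.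
-/
import Pool.Agent.Lib.TGX.A.CentIdx
import Pool.Agent.Lib.TGX.A.Fam2

namespace Pool.Agent.Lib.TGX

open Equiv

theorem card_U {Ω : Type} [Fintype Ω] [Nonempty Ω] (A U : Subgroup (Perm Ω)) (hAU : A ≤ U)
    (cen : ∀ a ∈ A, ∀ u ∈ U, a * u = u * a)
    (com : ∀ x ∈ U, ∀ y ∈ U, x * y * x⁻¹ * y⁻¹ ∈ A)
    (cU : ∀ u ∈ U, (∀ v ∈ U, u * v = v * u) → u ∈ A)
    (sr : ∀ ω : Ω, ∀ a ∈ A, a ω = ω → a = 1) :
    Nat.card U ≤ 2 ^ (2 * lg (Fintype.card Ω) ^ 2) := by
  classical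
  obtain ⟨ω⟩ := (inferInstance : Nonempty Ω)
  set m := Fintype.card Ω with hm
  have hA : Nat.card A ≤ m := card_semi A ω fun r hr h => sr ω r hr h
  let B : Subgroup (Perm Ω) := U ⊓ MulAction.stabilizer (Perm Ω) ω
  have hB : ∀ b, b ∈ B ↔ b ∈ U ∧ b ω = ω := fun b => Iff.rfl
  have hBU : B ≤ U := inf_le_left
  have hU : Nat.card U ≤ m * Nat.card B := by
    have h1 := card_le_fib U B (fun u : Perm Ω => u ω) (by
      intro g hg g' hg' h
      rw [hB]
      refine ⟨U.mul_mem (U.inv_mem hg) hg', ?_⟩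
      have h2 : g ω = g' ω := h
      rw [Perm.mul_apply, ← h2, ← Perm.mul_apply, inv_mul_cancel, Perm.one_apply])
    rwa [Nat.card_eq_fintype_card (α := Ω)] at h1
  have hab : ∀ b ∈ B, ∀ c ∈ B, b * c = c * b := by
    intro b hb c hc
    rw [hB] at hb hc
    have h1 : b * c * b⁻¹ * c⁻¹ = 1 := by
      refine sr ω _ (com b hb.1 c hc.1) ?_
      have hb' : b⁻¹ ω = ω := by rw [Perm.inv_eq_iff_eq, hb.2]
      have hc' : c⁻¹ ω = ω := by rw [Perm.inv_eq_iff_eq, hc.2]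
      rw [Perm.mul_apply, Perm.mul_apply, Perm.mul_apply, hc', hb', hc.2, hb.2]
    rw [mul_inv_eq_one, mul_inv_eq_iff_eq_mul] at h1
    exact h1
  have hpos : 0 < Nat.card B := Nat.card_pos
  have hlt : Nat.card U < 2 ^ (Nat.log 2 m + 1) * Nat.card B :=
    lt_of_le_of_lt hU (Nat.mul_lt_mul_of_pos_right (lt_lg m) hpos)
  obtain ⟨t, ht, hgen⟩ := gen_of_card_lt B U hBU (Nat.log 2 m) hlt
  have htU : ∀ s ∈ t, s ∈ U := by
    intro s hs
    rw [← hgen]
    exact Subgroup.mem_sup_right (Subgroup.subset_closure hs)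
  let f : Perm Ω → (t → A) := fun b s =>
    if h : b ∈ U then ⟨b * (s : Perm Ω) * b⁻¹ * (s : Perm Ω)⁻¹, com b h s (htU s s.2)⟩ else 1
  have hBc : Nat.card B ≤ Nat.card (t → A) * Nat.card (⊥ : Subgroup (Perm Ω)) := by
    refine card_le_fib B ⊥ f ?_
    intro b hb c hc hbc
    have hb' := (hB b).1 hb
    have hc' := (hB c).1 hc
    have hv : b⁻¹ * c ∈ B := B.mul_mem (B.inv_mem hb) hc
    have hcomm : ∀ s ∈ t, s * (b⁻¹ * c) = b⁻¹ * c * s := by
      intro s hs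
      have h1 := congrFun hbc ⟨s, hs⟩
      simp only [f, dif_pos hb'.1, dif_pos hc'.1] at h1
      have h2 : b * s * b⁻¹ * s⁻¹ = c * s * c⁻¹ * s⁻¹ :=
        congrArg (fun a : A => (a : Perm Ω)) h1
      have h3 : b * s * b⁻¹ = c * s * c⁻¹ := mul_right_cancel h2
      have h4 : b⁻¹ * (b * s * b⁻¹) * c = b⁻¹ * (c * s * c⁻¹) * c := by rw [h3]
      have e1 : b⁻¹ * (b * s * b⁻¹) * c = s * (b⁻¹ * c) := by group
      have e2 : b⁻¹ * (c * s * c⁻¹) * c = b⁻¹ * c * s := by group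
      rw [e1, e2] at h4
      exact h4
    have hle : U ≤ Subgroup.centralizer {b⁻¹ * c} := by
      rw [← hgen, sup_le_iff, Subgroup.closure_le]
      constructor
      · intro x hx
        rw [Subgroup.mem_centralizer_singleton_iff]
        exact hab _ hx _ hv
      · intro s hs
        rw [SetLike.mem_coe, Subgroup.mem_centralizer_singleton_iff]
        exact hcomm s hs
    have hvA : b⁻¹ * c ∈ A := by
      refine cU _ hv.1 fun v hv' => ?_
      exact (Subgroup.mem_centralizer_singleton_iff.1 (hle hv')).symm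
    rw [Subgroup.mem_bot]
    exact sr ω _ hvA ((hB _).1 hv).2
  have hcard : Nat.card B ≤ Nat.card A ^ t.card := by
    rw [Nat.card_fun, Nat.card_eq_fintype_card (α := t), Fintype.card_coe] at hBc
    simpa using hBc
  have h1 : m ≤ 2 ^ lg m := (lt_lg m).le
  calc Nat.card U ≤ m * Nat.card B := hU
    _ ≤ 2 ^ lg m * (2 ^ lg m) ^ (Nat.log 2 m) := by
        refine Nat.mul_le_mul h1 (hcard.trans ?_)
        calc Nat.card A ^ t.card ≤ (2 ^ lg m) ^ t.card := Nat.pow_le_pow_left (hA.trans h1) _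
          _ ≤ (2 ^ lg m) ^ (Nat.log 2 m) := Nat.pow_le_pow_right (by positivity) ht
    _ = 2 ^ (lg m * lg m) := by
        rw [← pow_mul, ← pow_add]
        congr 1
        show lg m + lg m * Nat.log 2 m = lg m * (Nat.log 2 m + 1)
        ring
    _ ≤ 2 ^ (2 * lg m ^ 2) := by
        refine Nat.pow_le_pow_right (by norm_num) ?_
        nlinarith

end Pool.Agent.Lib.TGX
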