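/-
TGX A.Base. Assembly of paper 3.2.
PROOF. Take `A, U` from `exists_AU`, `D = L ⊓ Subgroup.centralizer U`, `AD L A D` by `ad_of_U`. `A` is semiregular: `a ∈ A`, `a ω = ω`,
then `a (x ω) = x (a ω) = x ω` for `x ∈ A`, so `a = 1` by `hP A`. `Nat.card A ≤ m` by `card_semi`. `Nat.card U ≤ 2 ^ (2 l ^ 2)` by
`card_U`. `card_le_of_cent L U D`: `Nat.card L ≤ Nat.card U ^ Nat.log 2 (Nat.card U) * Nat.card D`, and
`Nat.log 2 (Nat.card U) ≤ 2 l ^ 2` (`Nat.log_mono_right`, `Nat.log_pow`), `(2 ^ (2 l ^ 2)) ^ (2 l ^ 2) = 2 ^ (4 l ^ 4)`.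
-/
import Pool.Agent.Lib.TGX.A.MaxU
import Pool.Agent.Lib.TGX.A.UCard
import Pool.Agent.Lib.TGX.A.DD

namespace Pool.Agent.Lib.TGX

open Equiv

theorem exists_AD {Ω : Type} [Fintype Ω] [Nonempty Ω] (L : Subgroup (Perm Ω)) (hP : PP L) :
    ∃ A D : Subgroup (Perm Ω), AD L A D ∧ Nat.card A ≤ Fintype.card Ω ∧
      Nat.card L ≤ 2 ^ (4 * lg (Fintype.card Ω) ^ 4) * Nat.card D := by
  obtain ⟨A, U, hA, hab, hU, hAU, cen, com, cU, mx⟩ := exists_AU L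
  have sr : ∀ ω : Ω, ∀ a ∈ A, a ω = ω → a = 1 := by
    intro ω a ha h
    refine hP A hA ω a ha fun x hx => ?_
    have h1 : a (x ω) = x (a ω) := by
      have := congrArg (fun g : Perm Ω => g ω) (hab a ha x hx)
      simpa [Perm.mul_apply] using this
    rw [h1, h]
  obtain ⟨ω⟩ := ‹Nonempty Ω›
  have : Nonempty Ω := ⟨ω⟩
  have hcU := card_U A U hAU cen com cU sr
  refine ⟨A, L ⊓ Subgroup.centralizer (U : Set (Perm Ω)),
    ad_of_U L A U hA hU hAU cen com cU mx, card_semi A ω (sr ω), ?_⟩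
  have h1 := card_le_of_cent L U (L ⊓ Subgroup.centralizer (U : Set (Perm Ω)))
    (fun h hh x hx => hU.2 h hh x hx)
    (fun h hh hc => Subgroup.mem_inf.2 ⟨hh, Subgroup.mem_centralizer_iff.2
      fun x hx => (hc x hx).symm⟩)
  refine h1.trans (Nat.mul_le_mul_right _ ?_)
  set l := lg (Fintype.card Ω)
  have h2 : Nat.log 2 (Nat.card U) ≤ 2 * l ^ 2 := by
    have := Nat.log_mono_right (b := 2) hcU
    rwa [Nat.log_pow (by norm_num)] at this
  calc Nat.card U ^ Nat.log 2 (Nat.card U)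
      ≤ (2 ^ (2 * l ^ 2)) ^ Nat.log 2 (Nat.card U) := Nat.pow_le_pow_left hcU _
    _ ≤ (2 ^ (2 * l ^ 2)) ^ (2 * l ^ 2) :=
        Nat.pow_le_pow_right (Nat.pos_of_ne_zero (by positivity)) h2
    _ = 2 ^ (4 * l ^ 4) := by
        rw [← pow_mul]
        congr 1
        ring

end Pool.Agent.Lib.TGX
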