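/-
TGX A.CentF. The centralizer of an extremal family in `D` is contained in `A` (paper 3.3 (i)).
PROOF. Let `E = {d ∈ D | ∀ X ∈ F, ∀ x ∈ X, d x = x d}`, a subgroup. `Nm L E`: for `g ∈ L`, `d ∈ E`: `g d g⁻¹ ∈ D` (`had.nD`); for
`X ∈ F`, `x ∈ X`: `g⁻¹ x g ∈ cj g⁻¹ X ∈ F` (`hF.1.conj`), so `d` commutes with `g⁻¹ x g`, and `g d g⁻¹` commutes with `x`.
Claim: `E` is abelian. Otherwise `E ∉ F` (if `E ∈ F`, elements of `E` commute with elements of `E` by definition of `E`), and
`F' = insert E F` satisfies `CFam L F'`: `le`: `E ≤ D ≤ L`; `conj`: `cj g E = E` (`cj_of_nm`); `comm`: `E` and `X ∈ F` commute by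
definition; `nab`: assumption; and all members are `≤ D`. But `F'.card = F.card + 1`, contradiction to `hF.2.2 F'`. So `E` is
abelian, all its commutators are `1 ∈ A`, and `E ≤ A` by `had.max`.
-/
import Pool.Agent.Lib.TGX.A.DefsA

namespace Pool.Agent.Lib.TGX

open Equiv

theorem cent_ext {G : Type} [Group G] [Finite G] (L A D : Subgroup G) (had : AD L A D)
    (F : Finset (Subgroup G)) (hF : Ext L D F) (d : G) (hd : d ∈ D)
    (hc : ∀ X ∈ F, ∀ x ∈ X, d * x = x * d) : d ∈ A := by
  classical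
  set E : Subgroup G := D ⊓ Subgroup.centralizer {x : G | ∃ X ∈ F, x ∈ X} with hE
  have memE : ∀ e : G, e ∈ E ↔ e ∈ D ∧ ∀ X ∈ F, ∀ x ∈ X, x * e = e * x := by
    intro e
    rw [hE, Subgroup.mem_inf, Subgroup.mem_centralizer_iff]
    constructor
    · rintro ⟨h1, h2⟩
      exact ⟨h1, fun X hX x hx => h2 x ⟨X, hX, hx⟩⟩
    · rintro ⟨h1, h2⟩
      refine ⟨h1, ?_⟩
      rintro x ⟨X, hX, hx⟩
      exact h2 X hX x hx
  have hED : E ≤ D := inf_le_left
  have hnm : Nm L E := by
    refine ⟨hED.trans had.nD.1, fun g hg e he => ?_⟩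
    obtain ⟨h1, h2⟩ := (memE e).1 he
    refine (memE _).2 ⟨had.nD.2 g hg e h1, fun X hX x hx => ?_⟩
    have h3 : g⁻¹ * x * g ∈ cj g⁻¹ X := by
      rw [mem_cj]
      have : g⁻¹⁻¹ * (g⁻¹ * x * g) * g⁻¹ = x := by group
      rw [this]
      exact hx
    have h4 := h2 (cj g⁻¹ X) (hF.1.conj g⁻¹ (L.inv_mem hg) X hX) _ h3
    calc x * (g * e * g⁻¹) = g * ((g⁻¹ * x * g) * e) * g⁻¹ := by group
      _ = g * (e * (g⁻¹ * x * g)) * g⁻¹ := by rw [h4]
      _ = g * e * g⁻¹ * x := by group
  have hab : ∀ x ∈ E, ∀ y ∈ E, x * y = y * x := by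
    by_contra hna
    push Not at hna
    obtain ⟨x, hx, y, hy, hxy⟩ := hna
    have hEF : E ∉ F := fun h => hxy (((memE y).1 hy).2 E h x hx)
    have hC : CFam L (insert E F) := by
      refine ⟨?_, ?_, ?_, ?_⟩
      · intro X hX
        rcases Finset.mem_insert.1 hX with rfl | hX
        · exact hnm.1
        · exact hF.1.le X hX
      · intro g hg X hX
        rcases Finset.mem_insert.1 hX with rfl | hX
        · have h1 : E.map (MulAut.conj g).toMonoidHom = E := cj_of_nm hnm hg
          rw [h1]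
          exact Finset.mem_insert_self _ _
        · exact Finset.mem_insert_of_mem (hF.1.conj g hg X hX)
      · intro X hX Y hY hne a ha b hb
        rcases Finset.mem_insert.1 hX with h1 | h1
        · rcases Finset.mem_insert.1 hY with h2 | h2
          · exact absurd (h1.trans h2.symm) hne
          · rw [h1] at ha
            exact (((memE a).1 ha).2 Y h2 b hb).symm
        · rcases Finset.mem_insert.1 hY with h2 | h2
          · rw [h2] at hb
            exact ((memE b).1 hb).2 X h1 a ha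
          · exact hF.1.comm X h1 Y h2 hne a ha b hb
      · intro X hX
        rcases Finset.mem_insert.1 hX with h1 | h1
        · rw [h1]
          exact ⟨x, hx, y, hy, hxy⟩
        · exact hF.1.nab X h1
    have hle : ∀ X ∈ insert E F, X ≤ D := by
      intro X hX
      rcases Finset.mem_insert.1 hX with h1 | h1
      · rw [h1]
        exact hED
      · exact hF.2.1 X h1
    have hcard : (insert E F).card = F.card + 1 := Finset.card_insert_of_notMem hEF
    rcases hF.2.2 (insert E F) hC hle with h | ⟨h, -⟩ <;> omega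
  refine had.max E hnm hED ?_ ((memE d).2 ⟨hd, fun X hX x hx => (hc X hX x hx).symm⟩)
  intro x hx y hy
  have h1 : x * y * x⁻¹ * y⁻¹ = 1 := by
    rw [hab x hx y hy]
    group
  rw [h1]
  exact A.one_mem

end Pool.Agent.Lib.TGX
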