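/-
TGX A.ExtEx. Extremal families exist.
PROOF. `Finset (Subgroup G)` is finite. Let `S` be the set of the `F` with `CFam L F` and `X ≤ D` for `X ∈ F`; `∅ ∈ S`. Choose
`F₁ ∈ S` with `F₁.card` maximal, and then `F` among the members of `S` with `F.card = F₁.card` with `∑ X ∈ F, Nat.card X` minimal
(`Set.exists_max_image`, `Set.exists_min_image`, `Set.toFinite`). For `F' ∈ S`: `F'.card ≤ F.card`; if not `<`, then equality, and
the sum is at least that of `F`.
-/
import Pool.Agent.Lib.TGX.A.DefsA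

namespace Pool.Agent.Lib.TGX

open Equiv

theorem exists_ext {G : Type} [Group G] [Finite G] (L D : Subgroup G) :
    ∃ F : Finset (Subgroup G), Ext L D F := by
  classical
  haveI : Finite (Subgroup G) := inferInstance
  haveI : Fintype (Subgroup G) := Fintype.ofFinite _
  haveI : Finite (Finset (Subgroup G)) := inferInstance
  let S : Set (Finset (Subgroup G)) := {F | CFam L F ∧ ∀ X ∈ F, X ≤ D}
  have h0 : (∅ : Finset (Subgroup G)) ∈ S := by
    refine ⟨⟨?_, ?_, ?_, ?_⟩, ?_⟩
    · intro X hX; exact absurd hX (Finset.notMem_empty X)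
    · intro g _ X hX; exact absurd hX (Finset.notMem_empty X)
    · intro X hX; exact absurd hX (Finset.notMem_empty X)
    · intro X hX; exact absurd hX (Finset.notMem_empty X)
    · intro X hX; exact absurd hX (Finset.notMem_empty X)
  obtain ⟨F₁, hF₁, hmax⟩ := Set.exists_max_image S (fun F => F.card) (Set.toFinite S) ⟨∅, h0⟩
  let S' : Set (Finset (Subgroup G)) := {F | F ∈ S ∧ F.card = F₁.card}
  obtain ⟨F, hF, hmin⟩ := Set.exists_min_image S' (fun F => ∑ X ∈ F, Nat.card X)
    (Set.toFinite S') ⟨F₁, hF₁, rfl⟩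
  refine ⟨F, hF.1.1, hF.1.2, fun F' h1 h2 => ?_⟩
  have h3 : F'.card ≤ F₁.card := hmax F' ⟨h1, h2⟩
  rcases lt_or_eq_of_le h3 with h4 | h4
  · left
    rw [hF.2]
    exact h4
  · right
    exact ⟨by rw [hF.2]; exact h4, hmin F' ⟨⟨h1, h2⟩, h4⟩⟩

end Pool.Agent.Lib.TGX
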