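/-
TGX A.Faith. A member of an invariant commuting family in a group with (P) is faithful on each of its orbits (paper 3.4).
PROOF. Let `P = sSup F`; `Nm L P` by `nm_sSup` (`hF.le`, `hF.conj`). Every `p ∈ P` is `c * x` with `x ∈ X` and `c` commuting with all
elements of `X`: by induction on `P` (closure): `p ∈ Z ∈ F`: `Z = X`: `c = 1`; `Z ≠ X`: `x = 1`, `hF.comm`; product:
`(c x)(c' x') = (c c')(x x')`; inverse: `(c x)⁻¹ = x⁻¹ c⁻¹ = c⁻¹ x⁻¹`. So for `p = c x ∈ P`: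
`a (p ω) = a (c (x ω)) = c (a (x ω)) = c (x ω) = p ω`, and `a = 1` by `hP P` (`a ∈ X ≤ P`).
-/
import Pool.Agent.Lib.TGX.A.DefsA

namespace Pool.Agent.Lib.TGX

open Equiv

theorem fam_faith {Ω : Type} (L : Subgroup (Perm Ω)) (hP : PP L) (F : Finset (Subgroup (Perm Ω)))
    (hF : CFam L F) (X : Subgroup (Perm Ω)) (hX : X ∈ F) (ω : Ω) (a : Perm Ω) (ha : a ∈ X)
    (h : ∀ x ∈ X, a (x ω) = x ω) : a = 1 := by
  have hPn : Nm L (sSup (F : Set (Subgroup (Perm Ω)))) :=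
    nm_sSup (fun Y hY => hF.le Y hY) (fun g hg Y hY => hF.conj g hg Y hY)
  let Q : Subgroup (Perm Ω) :=
    { carrier := {p | ∃ c x, x ∈ X ∧ (∀ y ∈ X, c * y = y * c) ∧ p = c * x}
      mul_mem' := by
        rintro p q ⟨c, x, hx, hc, rfl⟩ ⟨d, y, hy, hd, rfl⟩
        refine ⟨c * d, x * y, X.mul_mem hx hy, fun z hz => ?_, ?_⟩
        · rw [mul_assoc, hd z hz, ← mul_assoc, hc z hz, mul_assoc]
        · rw [mul_assoc, ← mul_assoc x d y, ← hd x hx, mul_assoc d x y, ← mul_assoc]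
      one_mem' := ⟨1, 1, X.one_mem, fun y _ => by rw [one_mul, mul_one], by rw [mul_one]⟩
      inv_mem' := by
        rintro p ⟨c, x, hx, hc, rfl⟩
        refine ⟨c⁻¹, x⁻¹, X.inv_mem hx, fun z hz => ?_, ?_⟩
        · rw [inv_mul_eq_iff_eq_mul, ← mul_assoc, hc z hz, mul_assoc, mul_inv_cancel, mul_one]
        · rw [mul_inv_rev, ← mul_inv_rev, hc x hx, mul_inv_rev] }
  have hQ : sSup (F : Set (Subgroup (Perm Ω))) ≤ Q := by
    refine sSup_le fun Z hZ z hz => ?_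
    by_cases hZX : Z = X
    · subst hZX
      exact ⟨1, z, hz, fun y _ => by rw [one_mul, mul_one], by rw [one_mul]⟩
    · exact ⟨z, 1, X.one_mem, fun y hy => hF.comm Z hZ X hX hZX z hz y hy, by rw [mul_one]⟩
  have hXP : X ≤ sSup (F : Set (Subgroup (Perm Ω))) := le_sSup hX
  refine hP _ hPn ω a (hXP ha) fun p hp => ?_
  obtain ⟨c, x, hx, hc, rfl⟩ := hQ hp
  have h1 : a * c = c * a := (hc a ha).symm
  calc a ((c * x) ω) = (a * c) (x ω) := rfl
    _ = (c * a) (x ω) := by rw [h1]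
    _ = c (a (x ω)) := rfl
    _ = c (x ω) := by rw [h x hx]
    _ = (c * x) ω := rfl

end Pool.Agent.Lib.TGX
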