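/-
TGX A.Fam1. Pairwise commuting nonabelian subgroups generate a large group.
PROOF. Induction on `F` (`Finset.induction_on`). Empty: `1 ≤ Nat.card`. Step `insert X F`, `X ∉ F`: let `P = sSup F`,
`P' = sSup (insert X F) = X ⊔ P`. All elements of `X` commute with all elements of `P` (`X ≠ Y` for `Y ∈ F`; `P` is contained in
the centralizer of `X`, `sSup_le`). So `X ≤ P` is impossible (`X` would be abelian, `nab`). Hence `P < P'`, and
`Nat.card P ∣ Nat.card P'` (Lagrange) gives `2 * Nat.card P ≤ Nat.card P'`.
-/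
import Pool.Agent.Lib.TGX.A.DefsA

namespace Pool.Agent.Lib.TGX

open Equiv

theorem card_fam {G : Type} [Group G] [Finite G] (F : Finset (Subgroup G))
    (comm : ∀ X ∈ F, ∀ Y ∈ F, X ≠ Y → ∀ x ∈ X, ∀ y ∈ Y, x * y = y * x)
    (nab : ∀ X ∈ F, ∃ x ∈ X, ∃ y ∈ X, x * y ≠ y * x) :
    2 ^ F.card ≤ Nat.card (sSup (F : Set (Subgroup G)) : Subgroup G) := by
  classical
  induction F using Finset.induction_on with
  | empty => simp
  | insert X F hX ih =>
    have ih' := ih (fun Y hY Z hZ => comm Y (Finset.mem_insert_of_mem hY) Z (Finset.mem_insert_of_mem hZ))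
      (fun Y hY => nab Y (Finset.mem_insert_of_mem hY))
    rw [Finset.card_insert_of_notMem hX, Finset.coe_insert, sSup_insert, pow_succ]
    set P : Subgroup G := sSup (F : Set (Subgroup G)) with hP
    have hcen : P ≤ Subgroup.centralizer (X : Set G) := by
      refine sSup_le fun Y hY y hy => ?_
      rw [Subgroup.mem_centralizer_iff]
      intro x hx
      have hne : X ≠ Y := fun h => hX (h ▸ hY)
      exact comm X (Finset.mem_insert_self _ _) Y (Finset.mem_insert_of_mem hY) hne x hx y hy
    have hlt : P < X ⊔ P := by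
      refine lt_of_le_of_ne le_sup_right fun h => ?_
      have hXP : X ≤ P := h ▸ le_sup_left
      obtain ⟨x, hx, y, hy, hxy⟩ := nab X (Finset.mem_insert_self _ _)
      have := hcen (hXP hy)
      rw [Subgroup.mem_centralizer_iff] at this
      exact hxy (this x hx)
    have hdvd : Nat.card P ∣ Nat.card (X ⊔ P : Subgroup G) := Subgroup.card_dvd_of_le hlt.le
    obtain ⟨k, hk⟩ := hdvd
    have hne : Nat.card P ≠ Nat.card (X ⊔ P : Subgroup G) := by
      intro h
      exact hlt.ne (Subgroup.eq_of_le_of_card_ge hlt.le h.ge)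
    have hk2 : 2 ≤ k := by
      rcases Nat.lt_or_ge k 2 with h | h
      · interval_cases k
        · have : 0 < Nat.card (X ⊔ P : Subgroup G) := Nat.card_pos
          omega
        · omega
      · exact h
    rw [hk]
    exact Nat.mul_le_mul ih' hk2

end Pool.Agent.Lib.TGX
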