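/-
TGX A.Fam3. A conjugation invariant family of pairwise commuting nonabelian subgroups of a group with (P) has at most
`2 * lg m` members (paper 3.1).
PROOF. Write `l = lg (Fintype.card Ω)`; `Fintype.card Ω < 2 ^ l` (`lt_lg`). If `F = ∅` trivial; otherwise `Ω` is nonempty (`F` has a
nonabelian member, so `Perm Ω` is nontrivial); fix `ω`. For `J ⊆ F` let `Z J = sSup J`. Let `J ⊆ F` be of largest cardinality with
`2 ^ J.card ≤ (orbS (Z J) ω).ncard` (`J = ∅` qualifies by `orbS_ncard_pos`). Let `Z = Z J`, `X ∈ F \ J`, `W = Z (insert X J)`. All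
elements of `X` commute with all elements of `Z` (members of `J` are different from `X`; centralizer, `sSup_le`), so
`g z g⁻¹ ∈ Z` for `g ∈ W`, `z ∈ Z` (`W = X ⊔ Z ≤` the normalizer of `Z`). If `g ω ∉ orbS Z ω` for some `g ∈ W` then by
`orb_double` `2 ^ (J.card + 1) ≤ (orbS W ω).ncard`, contradicting the choice of `J`. So `x ω ∈ orbS Z ω` for all `x ∈ X`, and then
`x (z ω) = z (x ω) ∈ orbS Z ω`: `X` maps `orbS Z ω` into itself, for all `X ∈ F \ J`, trivially also for `X ∈ J`. Hence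
`P = sSup F` does (closure induction, or: `P ≤` the subgroup of the permutations `g` with `g '' O = O`, `O = orbS Z ω` finite), so
`p ω ∈ orbS Z ω` for all `p ∈ P`. `Nm L P` by `nm_sSup` (`hF.le`, `hF.conj`). Let `R = sSup (F \ J)`; elements of `R` commute with
elements of `Z`. If `r ∈ R`, `r ω = ω`, then for `p ∈ P`: `p ω = z ω`, `z ∈ Z`, `r (p ω) = r (z ω) = z (r ω) = z ω = p ω`, so
`r = 1` by `hP P` (`r ∈ P`). So `Nat.card R ≤ Fintype.card Ω < 2 ^ l` (`card_semi`), and `2 ^ (F \ J).card ≤ Nat.card R`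
(`card_fam`), so `(F \ J).card < l`. Also `2 ^ J.card ≤ Fintype.card Ω < 2 ^ l` (`orbS_ncard_le`), `J.card < l`.
-/
import Pool.Agent.Lib.TGX.A.Fam1
import Pool.Agent.Lib.TGX.A.Fam2

namespace Pool.Agent.Lib.TGX

open Equiv

private theorem sup_comm {G : Type} [Group G] {A B : Set (Subgroup G)}
    (h : ∀ X ∈ A, ∀ Y ∈ B, ∀ x ∈ X, ∀ y ∈ Y, x * y = y * x) :
    ∀ x ∈ sSup A, ∀ y ∈ sSup B, x * y = y * x := by
  have h1 : ∀ Y ∈ B, ∀ y ∈ Y, ∀ x ∈ sSup A, x * y = y * x := by
    intro Y hY y hy x hx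
    have h2 : sSup A ≤ Subgroup.centralizer {y} := by
      refine sSup_le fun X hX x hx => ?_
      rw [Subgroup.mem_centralizer_iff]
      intro z hz
      rw [Set.mem_singleton_iff] at hz
      rw [hz]
      exact (h X hX Y hY x hx y hy).symm
    exact ((Subgroup.mem_centralizer_iff.1 (h2 hx)) y (Set.mem_singleton y)).symm
  intro x hx y hy
  have h2 : sSup B ≤ Subgroup.centralizer ((sSup A : Subgroup G) : Set G) := by
    refine sSup_le fun Y hY y hy => ?_
    rw [Subgroup.mem_centralizer_iff]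
    intro z hz
    exact h1 Y hY y hy z hz
  exact (Subgroup.mem_centralizer_iff.1 (h2 hy)) x hx

private def stab {Ω : Type} (O : Set Ω) : Subgroup (Perm Ω) where
  carrier := {g | (∀ y ∈ O, g y ∈ O) ∧ ∀ y ∈ O, g⁻¹ y ∈ O}
  mul_mem' := by
    rintro a b ⟨ha, ha'⟩ ⟨hb, hb'⟩
    refine ⟨fun y hy => ha _ (hb y hy), fun y hy => ?_⟩
    rw [mul_inv_rev]
    exact hb' _ (ha' y hy)
  one_mem' := ⟨fun y hy => hy, fun y hy => by rw [inv_one]; exact hy⟩
  inv_mem' := by
    rintro a ⟨ha, ha'⟩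
    exact ⟨ha', fun y hy => by rw [inv_inv]; exact ha y hy⟩

theorem fam_card {Ω : Type} [Fintype Ω] (L : Subgroup (Perm Ω)) (hP : PP L)
    (F : Finset (Subgroup (Perm Ω))) (hF : CFam L F) : F.card ≤ 2 * lg (Fintype.card Ω) := by
  classical
  by_cases hne : F = ∅
  · rw [hne]
    simp
  obtain ⟨X0, hX0⟩ := Finset.nonempty_iff_ne_empty.2 hne
  obtain ⟨x0, hx0, y0, hy0, hxy⟩ := hF.nab X0 hX0
  have hω : Nonempty Ω := by
    by_contra h
    rw [not_nonempty_iff] at h
    exact hxy (by ext w; exact (h.false w).elim)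
  obtain ⟨ω⟩ := hω
  have hl := lt_lg (Fintype.card Ω)
  have hS : (F.powerset.filter fun J : Finset (Subgroup (Perm Ω)) =>
      2 ^ J.card ≤ (orbS (sSup (J : Set (Subgroup (Perm Ω)))) ω).ncard).Nonempty := by
    refine ⟨∅, Finset.mem_filter.2 ⟨Finset.empty_mem_powerset F, ?_⟩⟩
    rw [Finset.card_empty, pow_zero]
    exact orbS_ncard_pos _ ω
  obtain ⟨J, hJ, hmax⟩ := Finset.exists_max_image _ (fun J => J.card) hS
  rw [Finset.mem_filter, Finset.mem_powerset] at hJ
  obtain ⟨hJF, hJ2⟩ := hJ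
  set Z : Subgroup (Perm Ω) := sSup (J : Set (Subgroup (Perm Ω))) with hZ
  have hcomm : ∀ X ∈ F, X ∉ J → ∀ x ∈ X, ∀ z ∈ Z, x * z = z * x := by
    intro X hX hXJ x hx z hz
    refine sup_comm (A := {X}) (B := (J : Set (Subgroup (Perm Ω)))) ?_ x ?_ z hz
    · intro X' hX' Y hY x' hx' y hy
      rw [Set.mem_singleton_iff] at hX'
      rw [hX'] at hx'
      exact hF.comm X hX Y (hJF hY) (fun h => hXJ (h ▸ hY)) x' hx' y hy
    · rw [sSup_singleton]
      exact hx
  have horb : ∀ X ∈ F, X ∉ J → ∀ x ∈ X, x ω ∈ orbS Z ω := by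
    intro X hX hXJ x hx
    by_contra hcon
    have hW : Z ≤ sSup ((insert X J : Finset (Subgroup (Perm Ω))) : Set (Subgroup (Perm Ω))) := by
      refine sSup_le_sSup ?_
      rw [Finset.coe_insert]
      exact Set.subset_insert _ _
    have hn : ∀ g ∈ sSup ((insert X J : Finset (Subgroup (Perm Ω))) : Set (Subgroup (Perm Ω))),
        ∀ z ∈ Z, g * z * g⁻¹ ∈ Z := by
      have h1 : sSup ((insert X J : Finset (Subgroup (Perm Ω))) : Set (Subgroup (Perm Ω))) ≤
          Subgroup.normalizer (Z : Set (Perm Ω)) := by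
        refine sSup_le fun Y hY => ?_
        rw [Finset.coe_insert, Set.mem_insert_iff] at hY
        rcases hY with rfl | hY
        · intro y hy
          rw [Subgroup.mem_normalizer_iff]
          intro h
          constructor
          · intro hh
            rw [hcomm _ hX hXJ y hy h hh, mul_inv_cancel_right]
            exact hh
          · intro hh
            have h2 := hcomm _ hX hXJ y hy _ hh
            have h3 : y * h * y⁻¹ = h := by
              have h4 : y * (y * h * y⁻¹) = y * h := by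
                rw [h2]
                group
              exact mul_left_cancel h4
            rw [← h3]
            exact hh
        · exact (le_sSup hY).trans Subgroup.le_normalizer
      intro g hg z hz
      exact (Subgroup.mem_normalizer_iff.1 (h1 hg) z).1 hz
    have hg : x ∈ sSup ((insert X J : Finset (Subgroup (Perm Ω))) : Set (Subgroup (Perm Ω))) := by
      refine (le_sSup ?_ : X ≤ _) hx
      rw [Finset.coe_insert]
      exact Set.mem_insert _ _
    have h1 := orb_double Z _ hW hn ω x hg hcon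
    have h2 : insert X J ∈ F.powerset.filter fun J : Finset (Subgroup (Perm Ω)) =>
      2 ^ J.card ≤ (orbS (sSup (J : Set (Subgroup (Perm Ω)))) ω).ncard := by
      rw [Finset.mem_filter, Finset.mem_powerset]
      refine ⟨Finset.insert_subset hX hJF, ?_⟩
      rw [Finset.card_insert_of_notMem hXJ, pow_succ]
      linarith
    have h3 := hmax _ h2
    rw [Finset.card_insert_of_notMem hXJ] at h3
    omega
  have hst : sSup (F : Set (Subgroup (Perm Ω))) ≤ stab (orbS Z ω) := by
    refine sSup_le fun X hX => ?_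
    by_cases hXJ : X ∈ J
    · have h1 : ∀ x ∈ X, ∀ y ∈ orbS Z ω, x y ∈ orbS Z ω := by
        rintro x hx y ⟨z, hz, rfl⟩
        exact ⟨x * z, Z.mul_mem ((le_sSup hXJ : X ≤ Z) hx) hz, rfl⟩
      intro x hx
      exact ⟨h1 x hx, h1 x⁻¹ (X.inv_mem hx)⟩
    · have h1 : ∀ x ∈ X, ∀ y ∈ orbS Z ω, x y ∈ orbS Z ω := by
        rintro x hx y ⟨z, hz, rfl⟩
        obtain ⟨z', hz', h2⟩ := horb X hX hXJ x hx
        refine ⟨z * z', Z.mul_mem hz hz', ?_⟩
        rw [Perm.mul_apply, h2, ← Perm.mul_apply, ← hcomm X hX hXJ x hx z hz, Perm.mul_apply]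
      intro x hx
      exact ⟨h1 x hx, h1 x⁻¹ (X.inv_mem hx)⟩
  have hself : ω ∈ orbS Z ω := ⟨1, Z.one_mem, rfl⟩
  have hNm : Nm L (sSup (F : Set (Subgroup (Perm Ω)))) :=
    nm_sSup (fun X hX => hF.le X hX) (fun g hg X hX => hF.conj g hg X hX)
  have hR : Nat.card (sSup ((F \ J : Finset (Subgroup (Perm Ω))) : Set (Subgroup (Perm Ω))) :
      Subgroup (Perm Ω)) ≤ Fintype.card Ω := by
    refine card_semi _ ω fun r hr hrω => ?_
    have hRF : sSup ((F \ J : Finset (Subgroup (Perm Ω))) : Set (Subgroup (Perm Ω))) ≤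
        sSup (F : Set (Subgroup (Perm Ω))) := by
      refine sSup_le_sSup ?_
      rw [Finset.coe_subset]
      exact Finset.sdiff_subset
    have hrc : ∀ z ∈ Z, r * z = z * r := by
      intro z hz
      refine sup_comm ?_ r hr z hz
      intro X hX Y hY x hx y hy
      rw [Finset.mem_coe, Finset.mem_sdiff] at hX
      exact hF.comm X hX.1 Y (hJF hY) (fun h => hX.2 (h ▸ hY)) x hx y hy
    refine hP _ hNm ω r (hRF hr) fun p hp => ?_
    obtain ⟨z, hz, h1⟩ := (hst hp).1 ω hself
    rw [← h1, ← Perm.mul_apply, hrc z hz, Perm.mul_apply, hrω]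
  have h1 := card_fam (F \ J)
    (fun X hX Y hY => hF.comm X (Finset.mem_sdiff.1 hX).1 Y (Finset.mem_sdiff.1 hY).1)
    (fun X hX => hF.nab X (Finset.mem_sdiff.1 hX).1)
  have h2 : (F \ J).card < lg (Fintype.card Ω) :=
    (Nat.pow_lt_pow_iff_right (by norm_num : 1 < 2)).1 ((h1.trans hR).trans_lt hl)
  have h3 : J.card < lg (Fintype.card Ω) :=
    (Nat.pow_lt_pow_iff_right (by norm_num : 1 < 2)).1
      ((hJ2.trans (orbS_ncard_le Z ω)).trans_lt hl)
  have h4 := Finset.card_sdiff_add_card_eq_card hJF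
  omega

end Pool.Agent.Lib.TGX
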