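/-
TGX A.GCor. The core of `H2` in `H3` centralises `X`.
PROOF. Let `Q` = the set of all `q ∈ H3` with `h⁻¹ * q * h ∈ H2` for all `h ∈ H3`: a subgroup, normal in
`H3` (`Nm H3 Q`), contained in `H2` (`h = 1`). `Y = Q ⊓ X` is normalised by `X` and `Y ≠ X` because
`X` is not contained in `H2`. So `Y ≤ A` by `simp`. For `q ∈ Q`, `x ∈ X` the commutator
`c x = q * x * q⁻¹ * x⁻¹` is in `X` (`H3` normalises `X`) and in `Q` (`q` times the conjugate of `q⁻¹` by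
`x`, `x ∈ H3`), so in `A`. `A` is central in `D ∋ x, y`:
`c (x * y) = q x q⁻¹ * (q y q⁻¹ y⁻¹) * x⁻¹ = c x * c y`, so `c` is a homomorphism from `X` to the
commutative group `A`, its kernel contains all commutators, so `⁅X, X⁆ = X`; hence `c x = 1` for
all `x ∈ X`, i.e. `q` commutes with `x`.
-/
import Pool.Agent.Lib.TGX.Defs

namespace Pool.Agent.Lib.TGX

/-- the elements of `H3` all of whose conjugates by elements of `H3` are in `H2` -/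
private def tgxGCor_Q {G : Type} [Group G] (H2 H3 : Subgroup G) : Subgroup G where
  carrier := {q | q ∈ H3 ∧ ∀ h ∈ H3, h⁻¹ * q * h ∈ H2}
  mul_mem' := by
    rintro a b ⟨ha, ha'⟩ ⟨hb, hb'⟩
    refine ⟨H3.mul_mem ha hb, fun h hh => ?_⟩
    have e : h⁻¹ * (a * b) * h = (h⁻¹ * a * h) * (h⁻¹ * b * h) := by group
    rw [e]
    exact H2.mul_mem (ha' h hh) (hb' h hh)
  one_mem' := ⟨H3.one_mem, fun h _ => by simp [H2.one_mem]⟩
  inv_mem' := by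
    rintro a ⟨ha, ha'⟩
    refine ⟨H3.inv_mem ha, fun h hh => ?_⟩
    have e : h⁻¹ * a⁻¹ * h = (h⁻¹ * a * h)⁻¹ := by group
    rw [e]
    exact H2.inv_mem (ha' h hh)

private theorem tgxGCor_conj {G : Type} [Group G] {H2 H3 : Subgroup G} {q x : G}
    (hq : q ∈ tgxGCor_Q H2 H3) (hx : x ∈ H3) : x * q * x⁻¹ ∈ tgxGCor_Q H2 H3 := by
  refine ⟨H3.mul_mem (H3.mul_mem hx hq.1) (H3.inv_mem hx), fun h hh => ?_⟩
  have e : h⁻¹ * (x * q * x⁻¹) * h = (x⁻¹ * h)⁻¹ * q * (x⁻¹ * h) := by group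
  rw [e]
  exact hq.2 _ (H3.mul_mem (H3.inv_mem hx) hh)

theorem core_comm {G : Type} [Group G] (A D X H2 H3 : Subgroup G) (hXD : X ≤ D)
    (cen : ∀ a ∈ A, ∀ d ∈ D, a * d = d * a) (perf : ⁅X, X⁆ = X)
    (simp : ∀ Y : Subgroup G, Nm X Y → Y ≠ X → Y ≤ A) (hX2 : ¬ X ≤ H2) (hX3 : X ≤ H3)
    (h3 : ∀ h ∈ H3, ∀ x ∈ X, h * x * h⁻¹ ∈ X) (q : G) (hq : q ∈ H3)
    (hq2 : ∀ h ∈ H3, h⁻¹ * q * h ∈ H2) : ∀ x ∈ X, q * x = x * q := by
  have hQ : q ∈ tgxGCor_Q H2 H3 := ⟨hq, hq2⟩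
  have hYA : tgxGCor_Q H2 H3 ⊓ X ≤ A := by
    refine simp _ ⟨inf_le_right, ?_⟩ ?_
    · rintro x hx y ⟨hy, hy'⟩
      exact ⟨tgxGCor_conj hy (hX3 hx), X.mul_mem (X.mul_mem hx hy') (X.inv_mem hx)⟩
    · intro h
      refine hX2 fun x hx => ?_
      have h1 : x ∈ tgxGCor_Q H2 H3 ⊓ X := by rw [h]; exact hx
      have h2 := h1.1.2 1 H3.one_mem
      simpa using h2
  -- the commutators with `q`
  have hcA : ∀ x ∈ X, q * x * q⁻¹ * x⁻¹ ∈ A := by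
    intro x hx
    refine hYA ⟨?_, X.mul_mem (h3 q hq x hx) (X.inv_mem hx)⟩
    have h1 := tgxGCor_conj ((tgxGCor_Q H2 H3).inv_mem hQ) (hX3 hx)
    have e : q * x * q⁻¹ * x⁻¹ = q * (x * q⁻¹ * x⁻¹) := by group
    rw [e]
    exact (tgxGCor_Q H2 H3).mul_mem hQ h1
  have hmul : ∀ x ∈ X, ∀ y ∈ X, q * (x * y) * q⁻¹ * (x * y)⁻¹ =
      (q * x * q⁻¹ * x⁻¹) * (q * y * q⁻¹ * y⁻¹) := by
    intro x hx y hy
    have h1 := cen _ (hcA y hy) x⁻¹ (hXD (X.inv_mem hx))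
    calc q * (x * y) * q⁻¹ * (x * y)⁻¹ = q * x * q⁻¹ * ((q * y * q⁻¹ * y⁻¹) * x⁻¹) := by group
      _ = q * x * q⁻¹ * (x⁻¹ * (q * y * q⁻¹ * y⁻¹)) := by rw [h1]
      _ = _ := by group
  let φ : X →* G :=
    { toFun := fun x => q * x * q⁻¹ * (x : G)⁻¹
      map_one' := by simp
      map_mul' := fun x y => hmul x x.2 y y.2 }
  have hK : X ≤ Subgroup.centralizer {q} := by
    conv_lhs => rw [← perf]
    rw [Subgroup.commutator_le]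
    intro x hx y hy
    have h0 : φ ⟨x, hx⟩ * φ ⟨y, hy⟩ = φ ⟨y, hy⟩ * φ ⟨x, hx⟩ :=
      cen _ (hcA x hx) _ (hXD (X.mul_mem (h3 q hq y hy) (X.inv_mem hy)))
    have h1 : φ (⟨x, hx⟩ * ⟨y, hy⟩ * ⟨x, hx⟩⁻¹ * ⟨y, hy⟩⁻¹) = 1 := by
      rw [map_mul, map_mul, map_mul, map_inv, map_inv, h0]
      group
    have h2 : q * (x * y * x⁻¹ * y⁻¹) * q⁻¹ * (x * y * x⁻¹ * y⁻¹)⁻¹ = 1 := h1
    rw [commutatorElement_def, Subgroup.mem_centralizer_singleton_iff]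
    rw [mul_inv_eq_one, mul_inv_eq_iff_eq_mul] at h2
    exact h2.symm
  intro x hx
  have h1 := Subgroup.mem_centralizer_singleton_iff.1 (hK hx)
  exact h1.symm

end Pool.Agent.Lib.TGX
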