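/-
TGX A.GCos. The action of a group on the cosets of a maximal subgroup is primitive.
PROOF. Transitive: clear (`MulAction.exists_smul_eq` / quotient action is pretransitive).
Let `r` be an invariant equivalence relation on `G ⧸ M`. The elements `g` with `r ⟦1⟧ (g • ⟦1⟧)` form
a subgroup `K`: if `r 1 (g • 1)` and `r 1 (h • 1)`, then `r (g • 1) (g • h • 1)`, so
`r 1 ((g * h) • 1)`; and `r (g⁻¹ • 1) (g⁻¹ • g • 1)`, so `r 1 (g⁻¹ • 1)` by symmetry. `M ≤ K` because
`g • 1 = 1` for `g ∈ M`. If `K = ⊤`, then `r 1 x` for all `x` and `r` is everything. If `K = M`: let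
`r x y`, `x = g • 1`, `y = h • 1`; then `r 1 ((g⁻¹ * h) • 1)`, so `g⁻¹ * h ∈ M` and `x = y`.
-/
import Pool.Agent.Lib.TGX.Defs

namespace Pool.Agent.Lib.TGX

private theorem GCos_coe {G : Type} [Group G] (M : Subgroup G) (g : G) :
    g • ((1 : G) : G ⧸ M) = (g : G ⧸ M) := by
  rw [MulAction.Quotient.smul_coe, smul_eq_mul, mul_one]

theorem prim_coset {G : Type} [Group G] (M : Subgroup G)
    (hmax : ∀ K : Subgroup G, M ≤ K → K = M ∨ K = ⊤) :
    Prim (MulAction.toPermHom G (G ⧸ M)).range := by
  constructor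
  · intro x y
    obtain ⟨g, hg⟩ := MulAction.exists_smul_eq G x y
    exact ⟨MulAction.toPermHom G (G ⧸ M) g, ⟨g, rfl⟩, hg⟩
  · intro r hr
    have hr' : ∀ (g : G) (x y : G ⧸ M), r x y → r (g • x) (g • y) := fun g x y h =>
      hr (MulAction.toPermHom G (G ⧸ M) g) ⟨g, rfl⟩ x y h
    let K : Subgroup G :=
      { carrier := {g | r ((1 : G) : G ⧸ M) (g • ((1 : G) : G ⧸ M))}
        one_mem' := by
          change r _ _
          rw [one_smul]
        mul_mem' := by
          intro a b ha hb
          change r _ _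
          rw [mul_smul]
          exact r.trans ha (hr' a _ _ hb)
        inv_mem' := by
          intro a ha
          have h := hr' a⁻¹ _ _ ha
          rw [inv_smul_smul] at h
          exact r.symm h }
    have hK : ∀ g, g ∈ K ↔ r ((1 : G) : G ⧸ M) (g • ((1 : G) : G ⧸ M)) := fun g => Iff.rfl
    have hM : M ≤ K := by
      intro g hg
      rw [hK, GCos_coe]
      have h : (g : G ⧸ M) = ((1 : G) : G ⧸ M) := by
        rw [QuotientGroup.eq, mul_one]
        exact M.inv_mem hg
      rw [h]
    rcases hmax K hM with h | h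
    · left
      intro x y hxy
      obtain ⟨g, rfl⟩ := QuotientGroup.mk_surjective x
      obtain ⟨g', rfl⟩ := QuotientGroup.mk_surjective y
      rw [QuotientGroup.eq, ← h, hK]
      rw [← GCos_coe M g, ← GCos_coe M g'] at hxy
      have h1 := hr' g⁻¹ _ _ hxy
      rw [inv_smul_smul, ← mul_smul] at h1
      exact h1
    · right
      have h1 : ∀ x : G ⧸ M, r ((1 : G) : G ⧸ M) x := by
        intro x
        obtain ⟨g, rfl⟩ := QuotientGroup.mk_surjective x
        have h2 : g ∈ K := by
          rw [h]
          exact Subgroup.mem_top g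
        rw [hK, GCos_coe] at h2
        exact h2
      intro x y
      exact r.trans (r.symm (h1 x)) (h1 y)

end Pool.Agent.Lib.TGX
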