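/-
TGX A.GExi. Choice of a subgroup maximal among those between `K` and `H` not containing `X`.
PROOF. `G` is finite, so there is a maximal element `H2` of
`{J | K ≤ J ∧ J ≤ H ∧ ¬ X ≤ J}` (it contains `K`). Put `H3 = X ⊔ H2`. If `H2 ≤ J ≤ H3` and `J ≠ H2`, then
`X ≤ J` by maximality (`J ≤ H3 ≤ H`), so `H3 = X ⊔ H2 ≤ J`.
-/
import Pool.Agent.Lib.TGX.Defs

namespace Pool.Agent.Lib.TGX

theorem exists_max_not_le {G : Type} [Group G] [Finite G] (K H X : Subgroup G) (hKH : K ≤ H)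
    (hXH : X ≤ H) (hX : ¬ X ≤ K) :
    ∃ H2 H3 : Subgroup G, K ≤ H2 ∧ H2 ≤ H3 ∧ H3 ≤ H ∧ ¬ X ≤ H2 ∧ X ≤ H3 ∧
      ∀ J : Subgroup G, H2 ≤ J → J ≤ H3 → J = H2 ∨ J = H3 := by
  have hfin : Set.Finite {J : Subgroup G | K ≤ J ∧ J ≤ H ∧ ¬ X ≤ J} := Set.toFinite _
  obtain ⟨H2, hm⟩ := hfin.exists_maximal ⟨K, le_rfl, hKH, hX⟩
  obtain ⟨h1, h2, h3⟩ := hm.prop
  refine ⟨H2, X ⊔ H2, h1, le_sup_right, sup_le hXH h2, h3, le_sup_left, fun J h4 h5 => ?_⟩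
  by_cases h6 : X ≤ J
  · exact Or.inr (le_antisymm h5 (sup_le h6 h4))
  · exact Or.inl (le_antisymm (hm.le_of_ge ⟨h1.trans h4, h5.trans (sup_le hXH h2), h6⟩ h4) h4)

end Pool.Agent.Lib.TGX
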