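/-
TGX A.GFac. The subgroup of `D` of the elements normalising every member of the family `F` has
index at most `k ^ k ≤ 2 ^ (k ^ 2)`, `k = F.card`.
PROOF. `card_le_fib` with `β = F → F` and `f g = (X ↦ X.map (conj g))` (for `g ∉ D` arbitrary): if
`f g = f g'`, then `X.map (conj (g⁻¹ * g')) = X` for all `X ∈ F`, so `g⁻¹ * g' ∈ K` by `hK`.
`Nat.card (F → F) = k ^ k ≤ (2 ^ k) ^ k`.
-/
import Pool.Agent.Lib.TGX.A.GFib

namespace Pool.Agent.Lib.TGX

private theorem gfac_mem {G : Type} [Group G] (X : Subgroup G) (g x : G) :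
    x ∈ X.map (MulAut.conj g).toMonoidHom ↔ g⁻¹ * x * g ∈ X := by
  constructor
  · rintro ⟨y, hy, rfl⟩
    have : g⁻¹ * (g * y * g⁻¹) * g = y := by group
    simpa [this] using hy
  · intro h
    refine ⟨g⁻¹ * x * g, h, ?_⟩
    show g * (g⁻¹ * x * g) * g⁻¹ = x
    group

theorem card_le_fac {G : Type} [Group G] [Finite G] (D K : Subgroup G) (F : Finset (Subgroup G))
    (hconj : ∀ g ∈ D, ∀ X ∈ F, X.map (MulAut.conj g).toMonoidHom ∈ F)
    (hK : ∀ g ∈ D, (∀ X ∈ F, X.map (MulAut.conj g).toMonoidHom = X) → g ∈ K) :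
    Nat.card D ≤ 2 ^ (F.card ^ 2) * Nat.card K := by
  classical
  have key := card_le_fib (β := {X // X ∈ F} → {X // X ∈ F}) D K
    (fun g X => if h : (X : Subgroup G).map (MulAut.conj g).toMonoidHom ∈ F then ⟨_, h⟩ else X)
    (by
      intro g hg g' hg' hfg
      refine hK _ (D.mul_mem (D.inv_mem hg) hg') fun X hX => ?_
      have h1 := congrFun hfg ⟨X, hX⟩
      simp only [hconj g hg X hX, hconj g' hg' X hX, dif_pos, Subtype.mk.injEq] at h1
      ext x
      rw [gfac_mem]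
      have e : (g⁻¹ * g')⁻¹ * x * (g⁻¹ * g') = g'⁻¹ * (g * x * g⁻¹) * g' := by group
      rw [e, ← gfac_mem X g' (g * x * g⁻¹), ← h1, gfac_mem]
      have e2 : g⁻¹ * (g * x * g⁻¹) * g = x := by group
      rw [e2])
  refine key.trans (Nat.mul_le_mul_right _ ?_)
  rw [Nat.card_fun, Nat.card_eq_fintype_card, Fintype.card_coe, pow_two, pow_mul]
  exact Nat.pow_le_pow_left (Nat.lt_two_pow_self).le _

end Pool.Agent.Lib.TGX
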