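/-
TGX A.GGen. Calculus of relative numbers of generators.
-/
import Pool.Agent.Lib.TGX.Defs

namespace Pool.Agent.Lib.TGX

theorem gen_trans {G : Type} [Group G] {K H M : Subgroup G} {a b : ℕ} (h1 : Gen K H a)
    (h2 : Gen H M b) : Gen K M (a + b) := by
  classical
  obtain ⟨s, hs, hs'⟩ := h1
  obtain ⟨t, ht, ht'⟩ := h2
  refine ⟨s ∪ t, (Finset.card_union_le s t).trans (add_le_add hs ht), ?_⟩
  rw [Finset.coe_union, Subgroup.closure_union, ← sup_assoc, hs', ht']

theorem gen_mono {G : Type} [Group G] {K H : Subgroup G} {a b : ℕ} (h : Gen K H a)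
    (hab : a ≤ b) : Gen K H b := by
  obtain ⟨s, hs, hs'⟩ := h
  exact ⟨s, hs.trans hab, hs'⟩

theorem gen_refl {G : Type} [Group G] (K : Subgroup G) : Gen K K 0 :=
  ⟨∅, le_refl _, by simp⟩

theorem gen_le {G : Type} [Group G] {K H : Subgroup G} {a : ℕ} (h : Gen K H a) : K ≤ H := by
  obtain ⟨s, hs, hs'⟩ := h
  rw [← hs']
  exact le_sup_left

end Pool.Agent.Lib.TGX
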