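/-
TGX A.GStA. Step, case (a): `X ≤ H_w N`, where `N` is the centraliser of `X` in `H`.
PROOF. Let `S = H ⊓ stabilizer w`, `Y = X ⊓ stabilizer w`. The elements `g` of `H` with
`g * y * g⁻¹ ∈ Y` and `g⁻¹ * y * g ∈ Y` for all `y ∈ Y` form a subgroup containing `S` (it normalises `X`
and the stabiliser of `w`) and `N` (it centralises `X`), hence containing `S ⊔ N ≥ X`. So `Y` is
normal in `X`; every `y ∈ Y` fixes `x w` for `x ∈ X` (`x⁻¹ * y * x ∈ Y` fixes `w`), so `y = 1` by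
`faith`. So `x ↦ x w` is injective on `X`, `Nat.card X ≤ m = card Ω`. By `card_le_of_cent`
`Nat.card H ≤ Nat.card X ^ Nat.log 2 (Nat.card X) * Nat.card N ≤ (2 ^ l) ^ l * Nat.card N` with
`l = lg m` (`m < 2 ^ l` by `lt_lg`; `Nat.log 2 (card X) ≤ Nat.log 2 m ≤ l`). `gen_of_card`.
-/
import Pool.Agent.Lib.TGX.A.GGen
import Pool.Agent.Lib.TGX.A.CentIdx

namespace Pool.Agent.Lib.TGX

open Equiv

theorem gen_stepA {Ω : Type} [Fintype Ω] (X H N : Subgroup (Perm Ω)) (hXH : X ≤ H)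
    (hH : ∀ h ∈ H, ∀ x ∈ X, h * x * h⁻¹ ∈ X)
    (hN : ∀ g, g ∈ N ↔ g ∈ H ∧ ∀ x ∈ X, g * x = x * g)
    (faith : ∀ w : Ω, ∀ a ∈ X, (∀ x ∈ X, a (x w) = x w) → a = 1) (w : Ω)
    (ha : X ≤ (H ⊓ MulAction.stabilizer (Perm Ω) w) ⊔ N) :
    Gen N H (lg (Fintype.card Ω) ^ 2) := by
  classical
  set Y : Subgroup (Perm Ω) := X ⊓ MulAction.stabilizer (Perm Ω) w with hY
  have memY : ∀ y : Perm Ω, y ∈ Y ↔ y ∈ X ∧ y w = w := fun y => by
    rw [hY, Subgroup.mem_inf, MulAction.mem_stabilizer_iff]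
    rfl
  have memS : ∀ y : Perm Ω, y ∈ H ⊓ MulAction.stabilizer (Perm Ω) w ↔ y ∈ H ∧ y w = w :=
    fun y => by
      rw [Subgroup.mem_inf, MulAction.mem_stabilizer_iff]
      rfl
  -- elements of `X` act on `Y` by conjugation
  have key : ∀ g ∈ X, ∀ y ∈ Y, g⁻¹ * y * g ∈ Y := by
    let T : Subgroup (Perm Ω) :=
      { carrier := {g | ∀ y ∈ Y, g * y * g⁻¹ ∈ Y ∧ g⁻¹ * y * g ∈ Y}
        mul_mem' := by
          intro a b ha hb y hy
          constructor
          · have h1 := (ha _ (hb y hy).1).1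
            have h2 : a * (b * y * b⁻¹) * a⁻¹ = a * b * y * (a * b)⁻¹ := by group
            rwa [h2] at h1
          · have h1 := (hb _ (ha y hy).2).2
            have h2 : b⁻¹ * (a⁻¹ * y * a) * b = (a * b)⁻¹ * y * (a * b) := by group
            rwa [h2] at h1
        one_mem' := by
          intro y hy
          simp only [one_mul, inv_one, mul_one, and_self]
          exact hy
        inv_mem' := by
          intro a ha y hy
          rw [inv_inv]
          exact ⟨(ha y hy).2, (ha y hy).1⟩ }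
    have hS : H ⊓ MulAction.stabilizer (Perm Ω) w ≤ T := by
      intro g hg y hy
      obtain ⟨hgH, hgw⟩ := (memS g).1 hg
      obtain ⟨hyX, hyw⟩ := (memY y).1 hy
      have hgw' : g⁻¹ w = w := by rw [Perm.inv_eq_iff_eq, hgw]
      constructor
      · refine (memY _).2 ⟨hH g hgH y hyX, ?_⟩
        rw [Perm.mul_apply, Perm.mul_apply, hgw', hyw, hgw]
      · refine (memY _).2 ⟨?_, ?_⟩
        · have h1 := hH g⁻¹ (H.inv_mem hgH) y hyX
          rwa [inv_inv] at h1
        · rw [Perm.mul_apply, Perm.mul_apply, hgw, hyw, hgw']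
    have hNT : N ≤ T := by
      intro g hg y hy
      have h1 := ((hN g).1 hg).2 y ((memY y).1 hy).1
      constructor
      · rw [h1, mul_inv_cancel_right]
        exact hy
      · rw [mul_assoc, ← h1, inv_mul_cancel_left]
        exact hy
    intro g hg y hy
    exact ((ha.trans (sup_le hS hNT)) hg y hy).2
  have hY1 : ∀ y ∈ Y, y = 1 := by
    intro y hy
    refine faith w y ((memY y).1 hy).1 fun x hx => ?_
    have h1 := ((memY _).1 (key x hx y hy)).2
    rwa [Perm.mul_apply, Perm.mul_apply, Perm.inv_eq_iff_eq] at h1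
  have hcard : Nat.card X ≤ Fintype.card Ω := by
    rw [← Nat.card_eq_fintype_card]
    refine Nat.card_le_card_of_injective (fun x : X => (x : Perm Ω) w) ?_
    intro x x' hxx
    have h1 : ((x : Perm Ω)⁻¹ * x') ∈ Y := by
      refine (memY _).2 ⟨X.mul_mem (X.inv_mem x.2) x'.2, ?_⟩
      rw [Perm.mul_apply, Perm.inv_eq_iff_eq]
      exact hxx.symm
    exact Subtype.ext (inv_mul_eq_one.1 (hY1 _ h1))
  have hNH : N ≤ H := fun g hg => ((hN g).1 hg).1
  have hcent := card_le_of_cent H X N hH (fun h hh hc => (hN h).2 ⟨hh, hc⟩)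
  set l := lg (Fintype.card Ω) with hl
  refine gen_of_card N H hNH (l ^ 2) (hcent.trans (Nat.mul_le_mul_right _ ?_))
  have h1 : Nat.card X ≤ 2 ^ l := hcard.trans (lt_lg _).le
  have h2 : Nat.log 2 (Nat.card X) ≤ l := by
    have h3 := Nat.log_mono_right (b := 2) h1
    rwa [Nat.log_pow (by norm_num)] at h3
  calc Nat.card X ^ Nat.log 2 (Nat.card X)
      ≤ (2 ^ l) ^ Nat.log 2 (Nat.card X) := Nat.pow_le_pow_left h1 _
    _ ≤ (2 ^ l) ^ l := Nat.pow_le_pow_right (by positivity) h2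
    _ = 2 ^ (l ^ 2) := by rw [← pow_mul, sq]

end Pool.Agent.Lib.TGX
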