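/-
TGX A.GTyp. Primitive groups on any finite type: at most 4 generators or small order.
PROOF. Let `e : α ≃ Fin n`, `n = Fintype.card α`, and `f : Perm α ≃* Perm (Fin n)` the induced
isomorphism (`e.permCongrHom`), `f g = e ∘ g ∘ e.symm`. `P.map f` is again primitive (transport the
equivalence relation: `Setoid.comap e`). By `hC` either `alternatingGroup (Fin n) ≤ P.map f`, and then
`gen_of_alternating_le` gives `Gen ⊥ (P.map f) 4`, and mapping the generators back by `f.symm` gives
`Gen ⊥ P 4`; or `Nat.card (P.map f) ≤ 2 ^ bp C n` and `Nat.card (P.map f) = Nat.card P`.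
-/
import Pool.Agent.Lib.TGX.B.AltGen

namespace Pool.Agent.Lib.TGX

open Equiv

private theorem gtyp_gen {G H : Type} [Group G] [Group H] (f : G ≃* H) (P : Subgroup G) (d : ℕ)
    (h : Gen ⊥ (P.map f.toMonoidHom) d) : Gen ⊥ P d := by
  classical
  obtain ⟨t, ht, he⟩ := h
  refine ⟨t.image f.symm, Finset.card_image_le.trans ht, ?_⟩
  rw [bot_sup_eq] at he ⊢
  have h1 : (P.map f.toMonoidHom).map f.symm.toMonoidHom = P := by
    rw [Subgroup.map_map]
    have : f.symm.toMonoidHom.comp f.toMonoidHom = MonoidHom.id G := by
      ext x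
      exact f.symm_apply_apply x
    rw [this, Subgroup.map_id]
  rw [← h1, ← he, MonoidHom.map_closure, Finset.coe_image]
  rfl

theorem gen_of_prim {α : Type} [Fintype α] (C : ℕ) (hC : PrimBound C) (P : Subgroup (Perm α))
    (hP : Prim P) : Gen ⊥ P 4 ∨ Nat.card P ≤ 2 ^ bp C (Fintype.card α) := by
  classical
  let e : α ≃ Fin (Fintype.card α) := Fintype.equivFin α
  let f : Perm α ≃* Perm (Fin (Fintype.card α)) := e.permCongrHom
  have hf : ∀ (g : Perm α) (x : α), f g (e x) = e (g x) := by
    intro g x
    show e (g (e.symm (e x))) = _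
    rw [e.symm_apply_apply]
  have hprim : Prim (P.map f.toMonoidHom) := by
    refine ⟨fun x y => ?_, fun r hr => ?_⟩
    · obtain ⟨g, hg, hgx⟩ := hP.1 (e.symm x) (e.symm y)
      refine ⟨f g, ⟨g, hg, rfl⟩, ?_⟩
      have := hf g (e.symm x)
      rw [e.apply_symm_apply, hgx, e.apply_symm_apply] at this
      exact this
    · rcases hP.2 (r.comap e) (fun g hg x y hxy => by
        have h1 := hr (f g) ⟨g, hg, rfl⟩ (e x) (e y) hxy
        rw [hf, hf] at h1
        exact h1) with h | h
      · left
        intro x y hxy
        have h1 := h (e.symm x) (e.symm y) (by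
          show r (e (e.symm x)) (e (e.symm y))
          rw [e.apply_symm_apply, e.apply_symm_apply]
          exact hxy)
        exact e.symm.injective h1
      · right
        intro x y
        have h1 : r (e (e.symm x)) (e (e.symm y)) := h (e.symm x) (e.symm y)
        rw [e.apply_symm_apply, e.apply_symm_apply] at h1
        exact h1
  rcases hC _ (P.map f.toMonoidHom) hprim with h | h
  · left
    exact gtyp_gen f P 4 (gen_of_alternating_le _ h)
  · right
    have hc : Nat.card (P.map f.toMonoidHom) = Nat.card P :=
      (Nat.card_congr (P.equivMapOfInjective f.toMonoidHom f.injective).toEquiv).symm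
    rw [← hc]
    exact h

end Pool.Agent.Lib.TGX
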