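/-
TGX A.GMax. Let `H2` be a maximal subgroup of `H3` of index at most `m`, and let `N ≤ H3` contain the
core of `H2` in `H3`. Then `H3` is generated by `N` and at most `bp C m + 4` elements.
PROOF. Let `G' = ↥H3`, `M = H2.subgroupOf H3`. `M` is maximal in `G'` (a subgroup `K` of `G'` above `M`
gives `K.map H3.subtype` between `H2` and `H3`), so the image `P` of
`φ = MulAction.toPermHom G' (G' ⧸ M)` is primitive by `prim_coset`; the degree is
`M.index = n ≤ m` (`Nat.card H3 = M.index * Nat.card H2`). If `φ g = 1` then `h⁻¹ * g * h ∈ H2` for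
all `h ∈ H3`, so `g ∈ N`. By `gen_of_prim` either `Gen ⊥ P 4`: then `gen_of_hom` (applied to `φ`,
`N.subgroupOf H3`, `⊤`) gives `Gen (N.subgroupOf H3) ⊤ 4`, push forward by `H3.subtype` to
`Gen N H3 4`. Or `Nat.card P ≤ 2 ^ bp C n ≤ 2 ^ bp C m` (`bp_mono`); then by `card_le_fib` with `f = φ`
`Nat.card H3 ≤ 2 ^ bp C m * Nat.card N` and `gen_of_card` gives `Gen N H3 (bp C m)`. `gen_mono`.
-/
import Pool.Agent.Lib.TGX.A.GGen
import Pool.Agent.Lib.TGX.A.GFib
import Pool.Agent.Lib.TGX.A.GHom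
import Pool.Agent.Lib.TGX.A.GCos
import Pool.Agent.Lib.TGX.A.GTyp
import Pool.Agent.Lib.TGX.A.GenCard

namespace Pool.Agent.Lib.TGX

private theorem GMax_ker {G : Type} [Group G] (H2 H3 N : Subgroup G)
    (hN : ∀ q ∈ H3, (∀ h ∈ H3, h⁻¹ * q * h ∈ H2) → q ∈ N) (g : H3)
    (hg : MulAction.toPermHom H3 (H3 ⧸ H2.subgroupOf H3) g = 1) : (g : G) ∈ N := by
  refine hN g g.2 fun h hh => ?_
  have h1 : MulAction.toPermHom H3 (H3 ⧸ H2.subgroupOf H3) g
      ((⟨h, hh⟩ : H3) : H3 ⧸ H2.subgroupOf H3) = ((⟨h, hh⟩ : H3) : H3 ⧸ H2.subgroupOf H3) := by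
    rw [hg]
    rfl
  have h2 : ((g * ⟨h, hh⟩ : H3) : H3 ⧸ H2.subgroupOf H3) =
      ((⟨h, hh⟩ : H3) : H3 ⧸ H2.subgroupOf H3) := h1
  have h3 := QuotientGroup.eq.1 h2.symm
  rw [Subgroup.mem_subgroupOf] at h3
  have h4 : h⁻¹ * ((g : G) * h) ∈ H2 := h3
  rwa [← mul_assoc] at h4

private theorem GMax_push {G : Type} [Group G] (H3 N : Subgroup G) (hN3 : N ≤ H3) (d : ℕ)
    (h : Gen (N.subgroupOf H3) ⊤ d) : Gen N H3 d := by
  classical
  obtain ⟨t, ht, he⟩ := h
  refine ⟨t.image H3.subtype, Finset.card_image_le.trans ht, ?_⟩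
  have h1 : (N.subgroupOf H3 ⊔ Subgroup.closure (t : Set H3)).map H3.subtype =
      (⊤ : Subgroup H3).map H3.subtype := by rw [he]
  rw [Subgroup.map_sup, Subgroup.subgroupOf_map_subtype, inf_eq_left.2 hN3,
    MonoidHom.map_closure, ← MonoidHom.range_eq_map, Subgroup.range_subtype] at h1
  rw [Finset.coe_image]
  exact h1

theorem gen_of_maximal {G : Type} [Group G] [Finite G] (C : ℕ) (hC : PrimBound C)
    (H2 H3 N : Subgroup G) (hle : H2 ≤ H3)
    (hmax : ∀ K : Subgroup G, H2 ≤ K → K ≤ H3 → K = H2 ∨ K = H3) (hN3 : N ≤ H3)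
    (hN : ∀ q ∈ H3, (∀ h ∈ H3, h⁻¹ * q * h ∈ H2) → q ∈ N) (m : ℕ)
    (hm : Nat.card H3 ≤ m * Nat.card H2) : Gen N H3 (bp C m + 4) := by
  classical
  set M : Subgroup H3 := H2.subgroupOf H3 with hM
  have hfin : Finite (H3 ⧸ M) := inferInstance
  let _ : Fintype (H3 ⧸ M) := Fintype.ofFinite _
  have hprim : Prim (MulAction.toPermHom H3 (H3 ⧸ M)).range := by
    apply prim_coset
    intro K hK
    have h1 : H2 ≤ K.map H3.subtype := by
      intro x hx
      exact ⟨⟨x, hle hx⟩, hK (Subgroup.mem_subgroupOf.2 hx), rfl⟩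
    have h2 : K.map H3.subtype ≤ H3 := by
      rintro _ ⟨x, _, rfl⟩
      exact x.2
    rcases hmax _ h1 h2 with h | h
    · left
      rw [hM, ← h]
      exact (Subgroup.comap_map_eq_self_of_injective H3.subtype_injective K).symm
    · right
      rw [eq_top_iff]
      intro x _
      have h3 : (x : G) ∈ K.map H3.subtype := by
        rw [h]
        exact x.2
      obtain ⟨y, hy, hyx⟩ := h3
      have h4 : y = x := Subtype.ext hyx
      rwa [← h4]
  have hdeg : Fintype.card (H3 ⧸ M) ≤ m := by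
    have h1 : Fintype.card (H3 ⧸ M) = M.index := by
      rw [← Nat.card_eq_fintype_card]
      rfl
    have h2 : M.index * Nat.card M = Nat.card H3 := M.index_mul_card
    have h3 : Nat.card M = Nat.card H2 :=
      Nat.card_congr (Subgroup.subgroupOfEquivOfLe hle).toEquiv
    rw [h1]
    rw [h3] at h2
    have h4 : 0 < Nat.card H2 := Nat.card_pos
    exact Nat.le_of_mul_le_mul_right (h2.trans_le hm) h4
  rcases gen_of_prim C hC _ hprim with h | h
  · refine gen_mono ?_ (Nat.le_add_left 4 (bp C m))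
    apply GMax_push H3 N hN3
    refine gen_of_hom (MulAction.toPermHom H3 (H3 ⧸ M)) _ _ ?_ le_top 4 ?_
    · intro x _ hx
      exact Subgroup.mem_subgroupOf.2 (GMax_ker H2 H3 N hN x hx)
    · rw [← MonoidHom.range_eq_map]
      exact h
  · refine gen_mono ?_ (Nat.le_add_right (bp C m) 4)
    apply gen_of_card N H3 hN3
    have h1 : Nat.card (MulAction.toPermHom H3 (H3 ⧸ M)).range ≤ 2 ^ bp C m :=
      h.trans (Nat.pow_le_pow_right (by norm_num) (bp_mono C hdeg))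
    refine le_trans ?_ (Nat.mul_le_mul_right _ h1)
    apply card_le_fib H3 N (fun g => if hg : g ∈ H3 then
      (⟨MulAction.toPermHom H3 (H3 ⧸ M) ⟨g, hg⟩, ⟨⟨g, hg⟩, rfl⟩⟩ :
        (MulAction.toPermHom H3 (H3 ⧸ M)).range) else 1)
    intro g hg g' hg' he
    simp only [dif_pos hg, dif_pos hg'] at he
    have he' : MulAction.toPermHom H3 (H3 ⧸ M) ⟨g, hg⟩ =
        MulAction.toPermHom H3 (H3 ⧸ M) ⟨g', hg'⟩ := congrArg Subtype.val he
    have h5 : MulAction.toPermHom H3 (H3 ⧸ M) (⟨g, hg⟩⁻¹ * ⟨g', hg'⟩) = 1 := by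
      rw [map_mul, map_inv, he', inv_mul_cancel]
    exact GMax_ker H2 H3 N hN _ h5

end Pool.Agent.Lib.TGX
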