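/-
TGX A.GStB. Step, case (b): `X` is not contained in `H_w N`.
PROOF. Let `K = (H ⊓ stabilizer w) ⊔ N ≤ H`, `l = lg m`, `m = card Ω`. Take `H2, H3` from
`exists_max_not_le K H X`. `N ≤ K ≤ H2 ≤ H3`. Orbit-stabiliser (or `card_le_fib` with `f g = g w`,
values in `Ω`): `Nat.card H ≤ m * Nat.card (H ⊓ stabilizer w) ≤ m * Nat.card H2 ≤ m * Nat.card H3`,
and `Nat.card H3 ≤ Nat.card H ≤ m * Nat.card H2`. `core_comm` and `hN` say that `N` contains the
core of `H2` in `H3`. `gen_of_maximal` gives `Gen N H3 (bp C m + 4)`, and `gen_of_card` with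
`m ≤ 2 ^ l` gives `Gen H3 H l`. `gen_trans`.
-/
import Pool.Agent.Lib.TGX.A.GMax
import Pool.Agent.Lib.TGX.A.GExi
import Pool.Agent.Lib.TGX.A.GCor

namespace Pool.Agent.Lib.TGX

open Equiv

theorem gen_stepB {Ω : Type} [Fintype Ω] (C : ℕ) (hC : PrimBound C)
    (A D X H N : Subgroup (Perm Ω)) (hXD : X ≤ D)
    (cen : ∀ a ∈ A, ∀ d ∈ D, a * d = d * a) (perf : ⁅X, X⁆ = X)
    (simp : ∀ Y : Subgroup (Perm Ω), Nm X Y → Y ≠ X → Y ≤ A) (hXH : X ≤ H)
    (hH : ∀ h ∈ H, ∀ x ∈ X, h * x * h⁻¹ ∈ X)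
    (hN : ∀ g, g ∈ N ↔ g ∈ H ∧ ∀ x ∈ X, g * x = x * g) (w : Ω)
    (hb : ¬ X ≤ (H ⊓ MulAction.stabilizer (Perm Ω) w) ⊔ N) :
    Gen N H (bp C (Fintype.card Ω) + 4 + lg (Fintype.card Ω)) := by
  classical
  have hNH : N ≤ H := fun g hg => ((hN g).1 hg).1
  have hKH : (H ⊓ MulAction.stabilizer (Perm Ω) w) ⊔ N ≤ H := sup_le inf_le_left hNH
  obtain ⟨H2, H3, hK2, h23, h3H, hX2, hX3, hmax⟩ := exists_max_not_le _ H X hKH hXH hb
  have hN3 : N ≤ H3 := (le_sup_right.trans hK2).trans h23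
  have hfib : Nat.card H ≤ Nat.card Ω * Nat.card (H ⊓ MulAction.stabilizer (Perm Ω) w :
      Subgroup (Perm Ω)) := by
    refine card_le_fib H (H ⊓ MulAction.stabilizer (Perm Ω) w) (fun g => g w) ?_
    intro g hg g' hg' h
    refine Subgroup.mem_inf.2 ⟨H.mul_mem (H.inv_mem hg) hg', ?_⟩
    rw [MulAction.mem_stabilizer_iff, Perm.smul_def, Perm.mul_apply]
    have h' : g w = g' w := h
    rw [← h']
    simp
  rw [Nat.card_eq_fintype_card (α := Ω)] at hfib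
  have c1 : Nat.card (H ⊓ MulAction.stabilizer (Perm Ω) w : Subgroup (Perm Ω)) ≤ Nat.card H2 :=
    Nat.card_le_card_of_injective _
      (Subgroup.inclusion_injective (le_sup_left.trans hK2))
  have c2 : Nat.card H2 ≤ Nat.card H3 :=
    Nat.card_le_card_of_injective _ (Subgroup.inclusion_injective h23)
  have c3 : Nat.card H3 ≤ Nat.card H :=
    Nat.card_le_card_of_injective _ (Subgroup.inclusion_injective h3H)
  have c4 : Nat.card H ≤ Fintype.card Ω * Nat.card H2 :=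
    hfib.trans (Nat.mul_le_mul_left _ c1)
  have g1 : Gen N H3 (bp C (Fintype.card Ω) + 4) :=
    gen_of_maximal C hC H2 H3 N h23 hmax hN3
      (fun q hq hq2 => (hN q).2 ⟨h3H hq, core_comm A D X H2 H3 hXD cen perf simp hX2 hX3
        (fun h hh x hx => hH h (h3H hh) x hx) q hq hq2⟩) (Fintype.card Ω) (c3.trans c4)
  have g2 : Gen H3 H (lg (Fintype.card Ω)) :=
    gen_of_card H3 H h3H (lg (Fintype.card Ω))
      (c4.trans (Nat.mul_le_mul (lt_lg (Fintype.card Ω)).le c2))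
  exact gen_trans g1 g2

end Pool.Agent.Lib.TGX
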