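/-
TGX A.GWj. Induction over the members of the family.
PROOF. Prove by `Finset.induction` on `S` (`S ⊆ F`): there is a subgroup `W` with
`g ∈ W ↔ g ∈ L1 ∧ ∀ X ∈ S, ∀ x ∈ X, g * x = x * g` and `Gen W L1 (S.card * c)`.
`S = ∅`: `W = L1`, `gen_refl`. Step `insert X S`, `X ∉ S`: let `W'` be the group for `S` and
`W = W' ⊓ Subgroup.centralizer X`; `X ≤ W'` because `X ≤ L1` and `X` commutes with every `Y ∈ S`
(`comm`, `Y ≠ X`), `W' ≤ L1`; `step X _ W' W` gives `Gen W W' c`, then `gen_trans`.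
-/
import Pool.Agent.Lib.TGX.A.GGen

namespace Pool.Agent.Lib.TGX

theorem gen_induct {G : Type} [Group G] (L1 : Subgroup G) (F : Finset (Subgroup G))
    (hle : ∀ X ∈ F, X ≤ L1)
    (comm : ∀ X ∈ F, ∀ Y ∈ F, X ≠ Y → ∀ x ∈ X, ∀ y ∈ Y, x * y = y * x) (c : ℕ)
    (step : ∀ X ∈ F, ∀ H N : Subgroup G, X ≤ H → H ≤ L1 →
      (∀ g, g ∈ N ↔ g ∈ H ∧ ∀ x ∈ X, g * x = x * g) → Gen N H c) :
    ∃ W : Subgroup G, (∀ g, g ∈ W ↔ g ∈ L1 ∧ ∀ X ∈ F, ∀ x ∈ X, g * x = x * g) ∧
      Gen W L1 (F.card * c) := by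
  classical
  have key : ∀ S : Finset (Subgroup G), S ⊆ F →
      ∃ W : Subgroup G, (∀ g, g ∈ W ↔ g ∈ L1 ∧ ∀ X ∈ S, ∀ x ∈ X, g * x = x * g) ∧
        Gen W L1 (S.card * c) := by
    intro S
    induction S using Finset.induction_on with
    | empty =>
      intro _
      refine ⟨L1, fun g => ⟨fun h => ⟨h, fun X hX => absurd hX (Finset.notMem_empty X)⟩,
        fun h => h.1⟩, ?_⟩
      rw [Finset.card_empty, Nat.zero_mul]
      exact gen_refl L1
    | insert X S hX ih =>
      intro hS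
      have hXF : X ∈ F := hS (Finset.mem_insert_self X S)
      have hSF : S ⊆ F := fun Y hY => hS (Finset.mem_insert_of_mem hY)
      obtain ⟨W', hW', hg⟩ := ih hSF
      have hmem : ∀ g, g ∈ W' ⊓ Subgroup.centralizer (X : Set G) ↔
          g ∈ W' ∧ ∀ x ∈ X, g * x = x * g := by
        intro g
        rw [Subgroup.mem_inf, Subgroup.mem_centralizer_iff]
        exact ⟨fun h => ⟨h.1, fun x hx => (h.2 x hx).symm⟩, fun h => ⟨h.1, fun x hx => (h.2 x hx).symm⟩⟩
      refine ⟨W' ⊓ Subgroup.centralizer (X : Set G), fun g => ?_, ?_⟩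
      · rw [hmem, hW']
        constructor
        · rintro ⟨⟨h1, h2⟩, h3⟩
          refine ⟨h1, fun Y hY => ?_⟩
          rcases Finset.mem_insert.1 hY with h | h
          · rw [h]
            exact h3
          · exact h2 Y h
        · rintro ⟨h1, h2⟩
          exact ⟨⟨h1, fun Y hY => h2 Y (Finset.mem_insert_of_mem hY)⟩,
            h2 X (Finset.mem_insert_self X S)⟩
      · have h1 : X ≤ W' := by
          intro x hx
          rw [hW']
          refine ⟨hle X hXF hx, fun Y hY y hy => ?_⟩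
          exact comm X hXF Y (hSF hY) (fun h => hX (h ▸ hY)) x hx y hy
        have h2 : W' ≤ L1 := fun g hg => ((hW' g).1 hg).1
        have h3 := step X hXF W' (W' ⊓ Subgroup.centralizer (X : Set G)) h1 h2 hmem
        have h4 := gen_trans h3 hg
        rw [Finset.card_insert_of_notMem hX, Nat.succ_mul, Nat.add_comm]
        exact h4
  exact key F (Finset.Subset.refl F)

end Pool.Agent.Lib.TGX
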