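/-
TGX A.GFew. Transitive groups with (P) have few generators: assembly (paper 3.6).
PROOF. `C` from `exists_primBound`. `d = 0`: `L = ⊥`, `Gen ⊥ ⊥ 0`. Let `d ≥ 1`, `l = lg d`. Take
`A, D, F` from `struct_thm`. `L1` = elements of `D` normalising every member of `F` (a subgroup, e.g.
`D ⊓ ⨅ X ∈ F, X.normalizer`). `Gen D L (4 l ^ 4)` (`gen_of_card`), `Gen L1 D ((2 l) ^ 2)`
(`card_le_fac`, `gen_of_card`). For `X ∈ F`: `X ≤ L1` (`X ≤ D`, `X` normalises itself and commutes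
with the other members). `gen_induct` with `c = l ^ 2 + (bp C d + 4 + l)`; the step is `gen_stepA`
or `gen_stepB` (choose a point `w`). The group `W` of `gen_induct` is contained in `A`, so
`Nat.card W ≤ Nat.card A ≤ d ≤ 2 ^ l` and `Gen ⊥ W l`. Total:
`l + 2 l c + 4 l ^ 2 + 4 l ^ 4 ≤ (2 C + 21) (sqrt d + 1) l ^ 12`.
-/
import Pool.Agent.Lib.TGX.A.GStA
import Pool.Agent.Lib.TGX.A.GStB
import Pool.Agent.Lib.TGX.A.GFac
import Pool.Agent.Lib.TGX.A.GWj
import Pool.Agent.Lib.TGX.A.Struct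

namespace Pool.Agent.Lib.TGX

open Equiv

private theorem GFew_num (C s l : ℕ) (hl : 1 ≤ l) :
    l + 2 * l * (l ^ 2 + (C * (s + 1) * l ^ 8 + 4 + l)) + (2 * l) ^ 2 + 4 * l ^ 4 ≤
      (2 * C + 21) * (s + 1) * l ^ 12 := by
  have h1 : l ≤ l ^ 12 := by
    calc l = l ^ 1 := (pow_one l).symm
      _ ≤ l ^ 12 := Nat.pow_le_pow_right hl (by norm_num)
  have h2 : l ^ 2 ≤ l ^ 12 := Nat.pow_le_pow_right hl (by norm_num)
  have h3 : l ^ 3 ≤ l ^ 12 := Nat.pow_le_pow_right hl (by norm_num)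
  have h4 : l ^ 4 ≤ l ^ 12 := Nat.pow_le_pow_right hl (by norm_num)
  have h9 : l ^ 9 ≤ l ^ 12 := Nat.pow_le_pow_right hl (by norm_num)
  have h5 : l ^ 12 ≤ (s + 1) * l ^ 12 := Nat.le_mul_of_pos_left _ (Nat.succ_pos s)
  calc l + 2 * l * (l ^ 2 + (C * (s + 1) * l ^ 8 + 4 + l)) + (2 * l) ^ 2 + 4 * l ^ 4
      = 2 * C * (s + 1) * l ^ 9 + (9 * l + 6 * l ^ 2 + 2 * l ^ 3 + 4 * l ^ 4) := by ring
    _ ≤ 2 * C * (s + 1) * l ^ 12 + 21 * ((s + 1) * l ^ 12) :=
        add_le_add (Nat.mul_le_mul_left _ h9) (by omega)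
    _ = (2 * C + 21) * (s + 1) * l ^ 12 := by ring

theorem few_gen (C : ℕ) (hC : PrimBound C) : ∃ C0 : ℕ, ∀ (d : ℕ) (L : Subgroup (Perm (Fin d))),
    L ∈ Tr (Fin d) → PP L → ∃ k : ℕ, k ≤ C0 * (Nat.sqrt d + 1) * lg d ^ 12 ∧ Gen ⊥ L k := by
  classical
  refine ⟨2 * C + 21, fun d L _ hP => ?_⟩
  rcases Nat.eq_zero_or_pos d with rfl | hd
  · refine ⟨0, Nat.zero_le _, ?_⟩
    have h : L = ⊥ := by
      ext x
      rw [Subgroup.mem_bot]
      constructor
      · intro _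
        exact Subsingleton.elim x 1
      · rintro rfl
        exact L.one_mem
    rw [h]
    exact gen_refl ⊥
  · haveI : Nonempty (Fin d) := ⟨⟨0, hd⟩⟩
    obtain ⟨A, D, F, had, hF, hcard, hmem, hcent, hA, hD⟩ := struct_thm L hP
    rw [Fintype.card_fin] at hcard hA hD
    set l := lg d with hl
    have hl1 : 1 ≤ l := lg_pos d
    let L1 : Subgroup (Perm (Fin d)) :=
      { carrier := {g | g ∈ D ∧ ∀ X ∈ F, cj g X = X}
        one_mem' := ⟨D.one_mem, fun X _ => cj_one X⟩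
        mul_mem' := by
          rintro a b ⟨ha, ha'⟩ ⟨hb, hb'⟩
          refine ⟨D.mul_mem ha hb, fun X hX => ?_⟩
          rw [cj_mul, hb' X hX, ha' X hX]
        inv_mem' := by
          rintro a ⟨ha, ha'⟩
          refine ⟨D.inv_mem ha, fun X hX => ?_⟩
          conv_lhs => rw [← ha' X hX]
          exact cj_inv_cj a X }
    have hL1 : ∀ g, g ∈ L1 ↔ g ∈ D ∧ ∀ X ∈ F, cj g X = X := fun g => Iff.rfl
    have g4 : Gen D L (4 * l ^ 4) := gen_of_card D L had.nD.1 _ hD
    have g3 : Gen L1 D (F.card ^ 2) := by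
      refine gen_of_card L1 D (fun g hg => hg.1) _ (card_le_fac D L1 F ?_ ?_)
      · exact fun g hg X hX => hF.conj g (had.nD.1 hg) X hX
      · exact fun g hg h => ⟨hg, h⟩
    have hle : ∀ X ∈ F, X ≤ L1 := by
      intro X hX x hx
      refine (hL1 x).2 ⟨(hmem X hX).le hx, fun Y hY => ?_⟩
      by_cases hXY : X = Y
      · subst hXY
        exact cj_of_nm (nm_self X) hx
      · have hc := hF.comm X hX Y hY hXY x hx
        ext y
        rw [mem_cj]
        constructor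
        · intro h
          have h1 := hc _ h
          have h2 : x⁻¹ * y * x = y := by
            have h3 : x * (x⁻¹ * y * x) = y * x := by group
            rw [h3] at h1
            exact (mul_right_cancel h1).symm
          rwa [h2] at h
        · intro h
          have h1 := hc y h
          have h2 : x⁻¹ * y * x = y := by
            rw [mul_assoc, ← h1, inv_mul_cancel_left]
          rwa [h2]
    obtain ⟨W, hW, gW⟩ := gen_induct L1 F hle hF.comm (l ^ 2 + (bp C d + 4 + l)) (by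
      intro X hX H N hXH hHL hN
      have hH : ∀ h ∈ H, ∀ x ∈ X, h * x * h⁻¹ ∈ X := by
        intro h hh x hx
        have h1 := conj_mem_cj (g := h) hx
        rwa [((hL1 h).1 (hHL hh)).2 X hX] at h1
      by_cases ha : X ≤ (H ⊓ MulAction.stabilizer (Perm (Fin d)) (⟨0, hd⟩ : Fin d)) ⊔ N
      · have h1 := gen_stepA X H N hXH hH hN (hmem X hX).faith ⟨0, hd⟩ ha
        rw [Fintype.card_fin] at h1
        exact gen_mono h1 (Nat.le_add_right _ _)
      · have h1 := gen_stepB C hC A D X H N (hmem X hX).le had.cen (hmem X hX).perf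
          (hmem X hX).nor hXH hH hN ⟨0, hd⟩ ha
        rw [Fintype.card_fin] at h1
        exact gen_mono h1 (Nat.le_add_left _ _))
    have hWA : W ≤ A := by
      intro g hg
      obtain ⟨h1, h2⟩ := (hW g).1 hg
      exact hcent g h1.1 h2
    have g1 : Gen ⊥ W l := by
      refine gen_of_card ⊥ W bot_le l ?_
      rw [Subgroup.card_bot, mul_one]
      have h1 : Nat.card W ≤ Nat.card A := Nat.le_of_dvd Nat.card_pos (Subgroup.card_dvd_of_le hWA)
      exact h1.trans (hA.trans (lt_lg d).le)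
    have g5 := gen_trans (gen_trans (gen_trans g1 gW) g3) g4
    refine ⟨_, ?_, g5⟩
    refine le_trans ?_ (GFew_num C (Nat.sqrt d) l hl1)
    have h1 : F.card * (l ^ 2 + (bp C d + 4 + l)) ≤
        2 * l * (l ^ 2 + (C * (Nat.sqrt d + 1) * l ^ 8 + 4 + l)) := Nat.mul_le_mul_right _ hcard
    have h2 : F.card ^ 2 ≤ (2 * l) ^ 2 := Nat.pow_le_pow_left hcard 2
    omega

end Pool.Agent.Lib.TGX
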