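/-
TGX A.GHom. Lifting generators through a homomorphism with kernel inside `N`.
PROOF. Let `t` be the finset with `closure t = H.map f` (`⊥ ⊔ closure t = closure t`) and at most `d`
elements. Every `y ∈ t` is `f (s y)` for some `s y ∈ H`; let `t'` be the image of `t` under `s`, so
`t'.card ≤ d`, `t' ⊆ H` and `f '' t' = t`. `N ⊔ closure t' ≤ H` clear. Conversely, if `x ∈ H` then
`f x ∈ closure t = closure (f '' t') = (closure t').map f`, so `f x = f y` with `y ∈ closure t'`;
`y ∈ H`, `f (x * y⁻¹) = 1`, so `x * y⁻¹ ∈ N` and `x ∈ N ⊔ closure t'`.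
-/
import Pool.Agent.Lib.TGX.Defs

namespace Pool.Agent.Lib.TGX

theorem gen_of_hom {G G' : Type} [Group G] [Group G'] (f : G →* G') (N H : Subgroup G)
    (hN : ∀ x ∈ H, f x = 1 → x ∈ N) (hNH : N ≤ H) (d : ℕ) (h : Gen ⊥ (H.map f) d) :
    Gen N H d := by
  classical
  obtain ⟨t, htc, ht⟩ := h
  rw [bot_sup_eq] at ht
  have hs : ∀ y : G', ∃ x : G, y ∈ t → x ∈ H ∧ f x = y := by
    intro y
    by_cases hy : y ∈ t
    · have h1 : y ∈ Subgroup.closure (t : Set G') := Subgroup.subset_closure (by exact_mod_cast hy)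
      rw [ht] at h1
      obtain ⟨x, hx, hxy⟩ := Subgroup.mem_map.1 h1
      exact ⟨x, fun _ => ⟨hx, hxy⟩⟩
    · exact ⟨1, fun h => absurd h hy⟩
  choose s hs using hs
  refine ⟨t.image s, le_trans Finset.card_image_le htc, ?_⟩
  have hsub : Subgroup.closure ((t.image s : Finset G) : Set G) ≤ H := by
    rw [Subgroup.closure_le]
    intro x hx
    rw [Finset.coe_image] at hx
    obtain ⟨y, hy, rfl⟩ := hx
    exact (hs y (by exact_mod_cast hy)).1
  apply le_antisymm (sup_le hNH hsub)
  intro x hx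
  have h2 : f x ∈ Subgroup.closure (t : Set G') := by
    rw [ht]
    exact Subgroup.mem_map_of_mem f hx
  have h3 : f '' ((t.image s : Finset G) : Set G) = (t : Set G') := by
    ext y
    constructor
    · rintro ⟨z, hz, rfl⟩
      rw [Finset.coe_image] at hz
      obtain ⟨w, hw, rfl⟩ := hz
      rw [(hs w (by exact_mod_cast hw)).2]
      exact hw
    · intro hy
      refine ⟨s y, ?_, (hs y (by exact_mod_cast hy)).2⟩
      rw [Finset.coe_image]
      exact ⟨y, hy, rfl⟩
  rw [← h3, ← MonoidHom.map_closure] at h2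
  obtain ⟨y, hy, hyx⟩ := Subgroup.mem_map.1 h2
  have h4 : x * y⁻¹ ∈ N := by
    apply hN
    · exact H.mul_mem hx (H.inv_mem (hsub hy))
    · rw [map_mul, map_inv, hyx, mul_inv_cancel]
  have h5 : x = (x * y⁻¹) * y := by group
  rw [h5]
  exact Subgroup.mul_mem _ (Subgroup.mem_sup_left h4) (Subgroup.mem_sup_right hy)

end Pool.Agent.Lib.TGX
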