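/-
TGX A.Orbit. A subgroup of `D` whose conjugates commute modulo `A` lies in `A`; members of extremal families.
PROOF of `le_of_orbit`: `S = {Z | ∃ g ∈ L, Z = cj g Y}`, `M = sSup S`. `Nm L M` by `nm_sSup` (members are `≤ D ≤ L` since `D` is
normal in `L`: `cj g Y ≤ cj g D = D`; `cj h (cj g Y) = cj (h * g) Y`). `M ≤ D`. `[M, M] ≤ A` by `comm_sSup`: `cen` from `had.cen`
(members `≤ D`); for `cj g Y`, `cj h Y`: `x = g x₀ g⁻¹`, `x₀ ∈ Y`, and `y = g y₀ g⁻¹` with `y₀ = g⁻¹ y g ∈ cj (g⁻¹ * h) Y`, so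
`x y x⁻¹ y⁻¹ = g (x₀ y₀ x₀⁻¹ y₀⁻¹) g⁻¹ ∈ A` by `h` and `had.nA`. So `M ≤ A` by `had.max`, and `Y = cj 1 Y ≤ M`.
`ext_not_comm`: if all commutators of `X` are in `A`, then `le_of_orbit` applies to `Y = X`: for `g ∈ L` either `cj g X = X`
(hypothesis) or `cj g X ≠ X` are two members of `F`, which commute. So `X ≤ A ≤ D`, and by `had.cen` `X` is abelian, contradiction
to `hF.1.nab X hX`.
-/
import Pool.Agent.Lib.TGX.A.CommSup

namespace Pool.Agent.Lib.TGX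

open Equiv

theorem le_of_orbit {G : Type} [Group G] (L A D : Subgroup G) (had : AD L A D)
    (Y : Subgroup G) (hY : Y ≤ D)
    (h : ∀ g ∈ L, ∀ x ∈ Y, ∀ y ∈ cj g Y, x * y * x⁻¹ * y⁻¹ ∈ A) : Y ≤ A := by
  have hD : ∀ g ∈ L, cj g Y ≤ D := fun g hg => (cj_mono g hY).trans (cj_of_nm had.nD hg).le
  have hS : ∀ Z ∈ {Z | ∃ g ∈ L, Z = cj g Y}, Z ≤ D := by
    rintro Z ⟨g, hg, rfl⟩
    exact hD g hg
  have hM : sSup {Z | ∃ g ∈ L, Z = cj g Y} ≤ A := by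
    refine had.max _ (nm_sSup (fun Z hZ => (hS Z hZ).trans had.nD.1) ?_) (sSup_le hS) ?_
    · rintro g hg Z ⟨k, hk, rfl⟩
      exact ⟨g * k, L.mul_mem hg hk, (cj_mul g k Y).symm⟩
    · refine comm_sSup A _ (fun Z hZ a ha y hy => had.cen a ha y (hS Z hZ hy)) ?_
      rintro X ⟨g, hg, rfl⟩ Z ⟨k, hk, rfl⟩ x hx y hy
      have h1 : g⁻¹ * x * g ∈ Y := mem_cj.1 hx
      have h2 : g⁻¹ * y * g ∈ cj (g⁻¹ * k) Y := by
        rw [cj_mul]
        have := conj_mem_cj (g := g⁻¹) hy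
        rwa [inv_inv] at this
      have h3 := h (g⁻¹ * k) (L.mul_mem (L.inv_mem hg) hk) _ h1 _ h2
      have h4 := had.nA.2 g hg _ h3
      have h5 : g * (g⁻¹ * x * g * (g⁻¹ * y * g) * (g⁻¹ * x * g)⁻¹ * (g⁻¹ * y * g)⁻¹) * g⁻¹ =
          x * y * x⁻¹ * y⁻¹ := by group
      rwa [h5] at h4
  refine le_trans (le_sSup ?_) hM
  exact ⟨1, L.one_mem, (cj_one Y).symm⟩

theorem ext_not_comm {G : Type} [Group G] (L A D : Subgroup G) (had : AD L A D)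
    (F : Finset (Subgroup G)) (hF : Ext L D F) (X : Subgroup G) (hX : X ∈ F)
    (h : ∀ x ∈ X, ∀ y ∈ X, x * y * x⁻¹ * y⁻¹ ∈ A) : False := by
  have hXA : X ≤ A := by
    refine le_of_orbit L A D had X (hF.2.1 X hX) ?_
    intro g hg x hx y hy
    by_cases hg' : cj g X = X
    · rw [hg'] at hy
      exact h x hx y hy
    · have h1 := hF.1.comm X hX (cj g X) (hF.1.conj g hg X hX) (fun e => hg' e.symm) x hx y hy
      have h2 : x * y * x⁻¹ * y⁻¹ = 1 := by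
        rw [h1]
        group
      rw [h2]
      exact A.one_mem
  obtain ⟨x, hx, y, hy, hxy⟩ := hF.1.nab X hX
  exact hxy (had.cen x (hXA hx) y (had.le (hXA hy)))

end Pool.Agent.Lib.TGX
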