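/-
TGX A.MinY. Minimal normal subgroups (not contained in `A`) of a member of an extremal family (paper 3.3 (iv)).
PROOF of `min_inter`: if `cj g X ≠ X` both are members of `F`, `x ∈ Y ≤ X` and `y ∈ cj g Y ≤ cj g X` commute, the commutator is `1`.
Let `cj g X = X`. Then `Nm X (cj g Y)` (`nm_cj` and `cj g X = X`), `W = Y ⊓ cj g Y`, `Nm X W` (`nm_inf`), `W ≤ Y`. If `W = Y` then
`Y ≤ cj g Y`, equal orders (`card_cj`), so `Y = cj g Y`, contradiction. So `W ≤ A` by `hmin`. The commutator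
`x y x⁻¹ y⁻¹ = x (y x⁻¹ y⁻¹) ∈ Y` (`y ∈ cj g Y ≤ X`, `Nm X Y`) and `= (x y x⁻¹) y⁻¹ ∈ cj g Y`, so it is in `W ≤ A`.
`min_perf`: `⁅Y, Y⁆` is normal in `X` (conjugates of commutators: `Subgroup.map_commutator` and `cj_of_nm`) and `≤ Y`. If
`⁅Y, Y⁆ ≤ A` then `le_of_orbit` applies to `Y` (for `cj g Y = Y` the commutators are in `⁅Y, Y⁆`, otherwise `min_inter`) and gives
`Y ≤ A`, contradiction. So `⁅Y, Y⁆ = Y` by `hmin`.
`min_comm`: fix `y ∈ cj g Y`. By `min_perf` it suffices that `⁅Y, Y⁆ ≤ Subgroup.centralizer {y}`, so (`Subgroup.commutator_le`)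
that `a b a⁻¹ b⁻¹` commutes with `y` for `a, b ∈ Y`. By `min_inter` `a y a⁻¹ = α y`, `b y b⁻¹ = β y` with `α, β ∈ A`, central in
`D ∋ a, b, y` (`Y ≤ X ≤ D`, `cj g Y ≤ cj g D = D`). So `a⁻¹ y a = α⁻¹ y`, `b⁻¹ y b = β⁻¹ y`, and
`(a b a⁻¹ b⁻¹) y (a b a⁻¹ b⁻¹)⁻¹ = a b a⁻¹ (b⁻¹ y b) a b⁻¹ a⁻¹ = a b (β⁻¹ α⁻¹ y) b⁻¹ a⁻¹ = a (α⁻¹ y) a⁻¹ = y`.
-/
import Pool.Agent.Lib.TGX.A.Orbit

namespace Pool.Agent.Lib.TGX

open Equiv

variable {G : Type} [Group G] [Finite G] (L A D : Subgroup G) (had : AD L A D)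
  (F : Finset (Subgroup G)) (hF : Ext L D F) (X : Subgroup G) (hX : X ∈ F) (Y : Subgroup G)
  (hY : Nm X Y) (hYA : ¬ Y ≤ A) (hmin : ∀ Z, Nm X Z → Z ≤ Y → Z ≤ A ∨ Z = Y)

include had hF hX hY hmin

theorem min_inter (g : G) (hg : g ∈ L) (hne : cj g Y ≠ Y) :
    ∀ x ∈ Y, ∀ y ∈ cj g Y, x * y * x⁻¹ * y⁻¹ ∈ A := by
  intro x hx y hy
  by_cases hXX : cj g X = X
  · have hc : Nm X (cj g Y) := by
      have h1 := nm_cj g hY
      rwa [hXX] at h1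
    rcases hmin (Y ⊓ cj g Y) (nm_inf hY hc) inf_le_left with h | h
    · apply h
      refine ⟨?_, ?_⟩
      · have h1 := Y.mul_mem hx (hY.2 y (hc.1 hy) x⁻¹ (Y.inv_mem hx))
        have e : x * y * x⁻¹ * y⁻¹ = x * (y * x⁻¹ * y⁻¹) := by group
        rw [e]; exact h1
      · exact (cj g Y).mul_mem (hc.2 x (hY.1 hx) y hy) ((cj g Y).inv_mem hy)
    · exfalso
      apply hne
      have h1 : Y ≤ cj g Y := le_trans (le_of_eq h.symm) inf_le_right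
      exact (Subgroup.eq_of_le_of_card_ge h1 (card_cj g Y).le).symm
  · have h1 := hF.1.comm X hX (cj g X) (hF.1.conj g hg X hX) (Ne.symm hXX) x (hY.1 hx) y
      (cj_mono g hY.1 hy)
    have e : x * y * x⁻¹ * y⁻¹ = 1 := by
      rw [h1]; group
    rw [e]; exact A.one_mem

include hYA

theorem min_perf : ⁅Y, Y⁆ = Y := by
  have hle : ⁅Y, Y⁆ ≤ Y := by
    rw [Subgroup.commutator_le]
    intro a ha b hb
    exact Y.mul_mem (Y.mul_mem (Y.mul_mem ha hb) (Y.inv_mem ha)) (Y.inv_mem hb)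
  have hnm : Nm X ⁅Y, Y⁆ := by
    refine ⟨hle.trans hY.1, fun g hg z hz => ?_⟩
    have h1 : cj g ⁅Y, Y⁆ = ⁅Y, Y⁆ := by
      show Subgroup.map _ ⁅Y, Y⁆ = _
      rw [Subgroup.map_commutator]
      have h2 : cj g Y = Y := cj_of_nm hY hg
      have h3 : Subgroup.map (MulAut.conj g).toMonoidHom Y = Y := h2
      rw [h3]
    rw [← h1]
    exact conj_mem_cj hz
  rcases hmin _ hnm hle with h | h
  · exfalso
    apply hYA
    refine le_of_orbit L A D had Y (hY.1.trans (hF.2.1 X hX)) fun g hg x hx y hy => ?_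
    by_cases hg' : cj g Y = Y
    · rw [hg'] at hy
      exact h (Subgroup.commutator_mem_commutator hx hy)
    · exact min_inter L A D had F hF X hX Y hY hmin g hg hg' x hx y hy
  · exact h

theorem min_comm (g : G) (hg : g ∈ L) (hne : cj g Y ≠ Y) :
    ∀ x ∈ Y, ∀ y ∈ cj g Y, x * y = y * x := by
  intro x hx y hy
  have hYD : Y ≤ D := hY.1.trans (hF.2.1 X hX)
  have hyD : y ∈ D := by
    have h1 := cj_mono g hYD hy
    rwa [cj_of_nm had.nD hg] at h1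
  have hc : ∀ a ∈ A, ∀ d ∈ D, d * a = a * d := fun a ha d hd => (had.cen a ha d hd).symm
  have hle : ⁅Y, Y⁆ ≤ Subgroup.centralizer {y} := by
    rw [Subgroup.commutator_le]
    intro a ha b hb
    have h1 := min_inter L A D had F hF X hX Y hY hmin g hg hne a ha y hy
    have h2 := min_inter L A D had F hF X hX Y hY hmin g hg hne b hb y hy
    rw [Subgroup.mem_centralizer_iff]
    intro z hz
    rw [Set.mem_singleton_iff] at hz
    subst hz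
    obtain ⟨α, hα⟩ : ∃ α, a * z * a⁻¹ * z⁻¹ = α := ⟨_, rfl⟩
    obtain ⟨β, hβ⟩ : ∃ β, b * z * b⁻¹ * z⁻¹ = β := ⟨_, rfl⟩
    rw [hα] at h1
    rw [hβ] at h2
    have haD := hYD ha
    have hbD := hYD hb
    -- `a z = α z a`
    have ea : a * z = α * z * a := by rw [← hα]; group
    have eb : b * z = β * z * b := by rw [← hβ]; group
    have ca := hc α h1
    have cb := hc β h2
    rw [commutatorElement_def]
    have e1 : a⁻¹ * z = α⁻¹ * z * a⁻¹ := by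
      have : a⁻¹ * z = a⁻¹ * (α⁻¹ * (α * z * a)) * a⁻¹ := by group
      rw [this, ← ea]
      have h3 : a⁻¹ * α⁻¹ = α⁻¹ * a⁻¹ := by
        rw [← mul_inv_rev, ← mul_inv_rev, ca a haD]
      rw [← mul_assoc, h3]; group
    have e2 : b⁻¹ * z = β⁻¹ * z * b⁻¹ := by
      have : b⁻¹ * z = b⁻¹ * (β⁻¹ * (β * z * b)) * b⁻¹ := by group
      rw [this, ← eb]
      have h3 : b⁻¹ * β⁻¹ = β⁻¹ * b⁻¹ := by
        rw [← mul_inv_rev, ← mul_inv_rev, cb b hbD]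
      rw [← mul_assoc, h3]; group
    have cai : ∀ d ∈ D, d * α⁻¹ = α⁻¹ * d := fun d hd => hc _ (A.inv_mem h1) d hd
    have cbi : ∀ d ∈ D, d * β⁻¹ = β⁻¹ * d := fun d hd => hc _ (A.inv_mem h2) d hd
    symm
    calc a * b * a⁻¹ * b⁻¹ * z = a * b * a⁻¹ * (b⁻¹ * z) := by group
      _ = a * b * (a⁻¹ * β⁻¹) * z * b⁻¹ := by rw [e2]; group
      _ = a * b * (β⁻¹ * a⁻¹) * z * b⁻¹ := by rw [cbi _ (D.inv_mem haD)]
      _ = a * b * β⁻¹ * (a⁻¹ * z) * b⁻¹ := by group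
      _ = a * b * β⁻¹ * (α⁻¹ * z * a⁻¹) * b⁻¹ := by rw [e1]
      _ = a * (b * β⁻¹) * α⁻¹ * z * a⁻¹ * b⁻¹ := by group
      _ = a * (β⁻¹ * b) * α⁻¹ * z * a⁻¹ * b⁻¹ := by rw [cbi _ hbD]
      _ = (a * β⁻¹) * (b * α⁻¹) * z * a⁻¹ * b⁻¹ := by group
      _ = (β⁻¹ * a) * (α⁻¹ * b) * z * a⁻¹ * b⁻¹ := by rw [cbi _ haD, cai _ hbD]
      _ = β⁻¹ * (a * α⁻¹) * (b * z) * a⁻¹ * b⁻¹ := by group
      _ = β⁻¹ * (α⁻¹ * a) * (β * z * b) * a⁻¹ * b⁻¹ := by rw [cai _ haD, eb]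
      _ = β⁻¹ * α⁻¹ * (a * β) * z * b * a⁻¹ * b⁻¹ := by group
      _ = β⁻¹ * α⁻¹ * (β * a) * z * b * a⁻¹ * b⁻¹ := by rw [cb _ haD]
      _ = β⁻¹ * (α⁻¹ * β) * (a * z) * b * a⁻¹ * b⁻¹ := by group
      _ = β⁻¹ * (β * α⁻¹) * (α * z * a) * b * a⁻¹ * b⁻¹ := by
          rw [← cai β (had.le h2), ea]
      _ = z * (a * b * a⁻¹ * b⁻¹) := by group
  have h4 := min_perf L A D had F hF X hX Y hY hYA hmin
  rw [← h4] at hx
  have h5 := Subgroup.mem_centralizer_iff.1 (hle hx) y (Set.mem_singleton y)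
  exact h5.symm

end Pool.Agent.Lib.TGX
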