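/-
TGX A.Nor. Proper normal subgroups of a member of an extremal family are contained in `A`; members are perfect
(paper 3.3 (iii), (iv)).
PROOF of `ext_nor`. Suppose `¬ Y ≤ A`. Among the `Z` with `Nm X Z`, `Z ≤ Y`, `¬ Z ≤ A` take `Y₁` of smallest order. Then
`Nm X Z → Z ≤ Y₁ → Z ≤ A ∨ Z = Y₁` (orders), and `Y₁ ≠ X` (`Y₁ ≤ Y ≤ X`, `Y ≠ X`). So `min_perf`, `min_comm` (A.MinY) apply to
`Y₁`. Let `F' = {Z ∈ F | ∀ g ∈ L, Z ≠ cj g X} ∪ {cj g Y₁ | g ∈ L}` (a finset: `Subgroup G` is finite). `CFam L F'`: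
`le`: `cj g Y₁ ≤ cj g X ∈ F`. `conj`: `cj h Z = cj g X` implies `Z = cj (h⁻¹ * g) X`; `cj h (cj g Y₁) = cj (h * g) Y₁`.
`comm`: two members of `F`: `hF.1.comm`; `Z ∈ F`, `Z ≠ cj g X`, and `cj g Y₁ ≤ cj g X`: `hF.1.comm`;
`cj g Y₁ ≠ cj h Y₁`: then `cj (g⁻¹ * h) Y₁ ≠ Y₁`, and `x = g x₀ g⁻¹`, `y = g y₀ g⁻¹`, `x₀ ∈ Y₁`, `y₀ ∈ cj (g⁻¹ * h) Y₁` commute by
`min_comm`. `nab`: if `cj g Y₁` were abelian, so would be `Y₁ = ⁅Y₁, Y₁⁆ = ⊥ ≤ A`. Members of `F'` are `≤ D` (`Y₁ ≤ X ≤ D`,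
`cj g D = D`). Every `Z ∈ F` contains a member of `F'`: `cj g Y₁` if `Z = cj g X`, otherwise `Z`. So `F' = F` (`ext_rigid`), and
`Y₁ = cj 1 Y₁ ∈ F`, `Y₁ ≠ X`, so elements of `Y₁` commute with elements of `X ⊇ Y₁`: `Y₁` is abelian, contradiction.
`ext_perf`: otherwise `⁅X, X⁆` is a normal subgroup of `X` different from `X`, so `⁅X, X⁆ ≤ A` by `ext_nor`, contradiction to
`ext_not_comm` (A.Orbit).
-/
import Pool.Agent.Lib.TGX.A.MinY
import Pool.Agent.Lib.TGX.A.Rigid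

namespace Pool.Agent.Lib.TGX

open Equiv

private theorem Nor_abel {G : Type} [Group G] (A Y : Subgroup G) (hperf : ⁅Y, Y⁆ = Y)
    (hYA : ¬ Y ≤ A) (hab : ∀ x ∈ Y, ∀ y ∈ Y, x * y = y * x) : False := by
  apply hYA
  rw [← hperf, Subgroup.commutator_le]
  intro x hx y hy
  rw [commutatorElement_eq_one_iff_mul_comm.2 (hab x hx y hy)]
  exact A.one_mem

theorem ext_nor {G : Type} [Group G] [Finite G] (L A D : Subgroup G) (had : AD L A D)
    (F : Finset (Subgroup G)) (hF : Ext L D F) (X : Subgroup G) (hX : X ∈ F) (Y : Subgroup G)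
    (hY : Nm X Y) (hne : Y ≠ X) : Y ≤ A := by
  classical
  by_contra hYA
  obtain ⟨Y₁, ⟨hY₁, hY₁Y, hY₁A⟩, hminc⟩ := Set.exists_min_image
    {Z : Subgroup G | Nm X Z ∧ Z ≤ Y ∧ ¬ Z ≤ A} (fun Z => Nat.card Z) (Set.toFinite _)
    ⟨Y, hY, le_rfl, hYA⟩
  have hmin : ∀ Z, Nm X Z → Z ≤ Y₁ → Z ≤ A ∨ Z = Y₁ := by
    intro Z hZ hZY
    by_cases hZA : Z ≤ A
    · exact Or.inl hZA
    · right
      have h1 := hminc Z ⟨hZ, hZY.trans hY₁Y, hZA⟩
      exact Subgroup.eq_of_le_of_card_ge hZY h1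
  have hY₁X : Y₁ ≠ X := by
    intro h
    exact hne (le_antisymm hY.1 (h ▸ hY₁Y))
  have hperf := min_perf L A D had F hF X hX Y₁ hY₁ hY₁A hmin
  have habel := Nor_abel A Y₁ hperf hY₁A
  have hcomm := min_comm L A D had F hF X hX Y₁ hY₁ hY₁A hmin
  have hcjX : ∀ g ∈ L, cj g X ∈ F := fun g hg => hF.1.conj g hg X hX
  have hcjle : ∀ g : G, cj g Y₁ ≤ cj g X := fun g => cj_mono g hY₁.1
  let F' : Finset (Subgroup G) := (F.filter (fun Z => ∀ g ∈ L, Z ≠ cj g X)) ∪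
    (Set.toFinite {W : Subgroup G | ∃ g ∈ L, W = cj g Y₁}).toFinset
  have hmem : ∀ W, W ∈ F' ↔ (W ∈ F ∧ ∀ g ∈ L, W ≠ cj g X) ∨ ∃ g ∈ L, W = cj g Y₁ := by
    intro W
    simp only [F', Finset.mem_union, Finset.mem_filter, Set.Finite.mem_toFinset, Set.mem_ofPred_eq]
  have hF'1 : CFam L F' := by
    refine ⟨?_, ?_, ?_, ?_⟩
    · intro W hW
      rcases (hmem W).1 hW with ⟨h1, -⟩ | ⟨g, hg, rfl⟩
      · exact hF.1.le W h1
      · exact (hcjle g).trans (hF.1.le _ (hcjX g hg))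
    · intro h hh W hW
      rcases (hmem W).1 hW with ⟨h1, h2⟩ | ⟨g, hg, rfl⟩
      · refine (hmem _).2 (Or.inl ⟨hF.1.conj h hh W h1, fun g hg h3 => ?_⟩)
        have h4 : cj h W = cj g X := h3
        refine h2 (h⁻¹ * g) (L.mul_mem (L.inv_mem hh) hg) ?_
        rw [cj_mul, ← h4, cj_inv_cj]
      · refine (hmem _).2 (Or.inr ⟨h * g, L.mul_mem hh hg, ?_⟩)
        exact (cj_mul h g Y₁).symm
    · -- commuting
      have key : ∀ Z ∈ F, (∀ g ∈ L, Z ≠ cj g X) → ∀ g ∈ L, ∀ x ∈ Z, ∀ y ∈ cj g Y₁,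
          x * y = y * x := by
        intro Z hZ hZX g hg x hx y hy
        exact hF.1.comm Z hZ (cj g X) (hcjX g hg) (hZX g hg) x hx y (hcjle g hy)
      intro W hW V hV hWV x hx y hy
      rcases (hmem W).1 hW with ⟨h1, h2⟩ | ⟨g, hg, rfl⟩
      · rcases (hmem V).1 hV with ⟨h3, h4⟩ | ⟨g', hg', rfl⟩
        · exact hF.1.comm W h1 V h3 hWV x hx y hy
        · exact key W h1 h2 g' hg' x hx y hy
      · rcases (hmem V).1 hV with ⟨h3, h4⟩ | ⟨g', hg', rfl⟩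
        · exact (key V h3 h4 g hg y hy x hx).symm
        · have h5 : cj (g⁻¹ * g') Y₁ ≠ Y₁ := by
            intro h6
            apply hWV
            have h7 : cj g' Y₁ = cj g (cj (g⁻¹ * g') Y₁) := by
              rw [← cj_mul]
              congr 1
              group
            rw [h7, h6]
          have hx' := mem_cj.1 hx
          have hy' : g⁻¹ * y * g ∈ cj (g⁻¹ * g') Y₁ := by
            rw [mem_cj]
            have h8 := mem_cj.1 hy
            have h9 : (g⁻¹ * g')⁻¹ * (g⁻¹ * y * g) * (g⁻¹ * g') = g'⁻¹ * y * g' := by group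
            rw [h9]
            exact h8
          have h10 := hcomm (g⁻¹ * g') (L.mul_mem (L.inv_mem hg) hg') h5 _ hx' _ hy'
          have h11 : x * y = g * ((g⁻¹ * x * g) * (g⁻¹ * y * g)) * g⁻¹ := by group
          have h12 : y * x = g * ((g⁻¹ * y * g) * (g⁻¹ * x * g)) * g⁻¹ := by group
          rw [h11, h12, h10]
    · intro W hW
      rcases (hmem W).1 hW with ⟨h1, -⟩ | ⟨g, hg, rfl⟩
      · exact hF.1.nab W h1
      · by_contra hcon
        push Not at hcon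
        apply habel
        intro x hx y hy
        have h1 := hcon _ (conj_mem_cj (g := g) hx) _ (conj_mem_cj (g := g) hy)
        have h2 : g * x * g⁻¹ * (g * y * g⁻¹) = g * (x * y) * g⁻¹ := by group
        have h3 : g * y * g⁻¹ * (g * x * g⁻¹) = g * (y * x) * g⁻¹ := by group
        rw [h2, h3] at h1
        exact mul_left_cancel (mul_right_cancel h1)
  have hF'2 : ∀ W ∈ F', W ≤ D := by
    intro W hW
    rcases (hmem W).1 hW with ⟨h1, -⟩ | ⟨g, hg, rfl⟩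
    · exact hF.2.1 W h1
    · exact (hcjle g).trans (hF.2.1 _ (hcjX g hg))
  have hF'3 : ∀ Z ∈ F, ∃ W ∈ F', W ≤ Z := by
    intro Z hZ
    by_cases h : ∃ g ∈ L, Z = cj g X
    · obtain ⟨g, hg, rfl⟩ := h
      exact ⟨cj g Y₁, (hmem _).2 (Or.inr ⟨g, hg, rfl⟩), hcjle g⟩
    · push Not at h
      exact ⟨Z, (hmem _).2 (Or.inl ⟨hZ, h⟩), le_rfl⟩
  have hFF := ext_rigid L D F hF F' hF'1 hF'2 hF'3
  have hY₁F : Y₁ ∈ F := by
    rw [← hFF]
    exact (hmem _).2 (Or.inr ⟨1, L.one_mem, (cj_one Y₁).symm⟩)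
  exact habel fun x hx y hy => hF.1.comm Y₁ hY₁F X hX hY₁X x hx y (hY₁.1 hy)

theorem ext_perf {G : Type} [Group G] [Finite G] (L A D : Subgroup G) (had : AD L A D)
    (F : Finset (Subgroup G)) (hF : Ext L D F) (X : Subgroup G) (hX : X ∈ F) : ⁅X, X⁆ = X := by
  by_contra hne
  have hle : ⁅X, X⁆ ≤ X := by
    rw [Subgroup.commutator_le]
    intro x hx y hy
    rw [commutatorElement_def]
    exact X.mul_mem (X.mul_mem (X.mul_mem hx hy) (X.inv_mem hx)) (X.inv_mem hy)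
  have hnm : Nm X ⁅X, X⁆ := by
    refine ⟨hle, fun g hg x hx => ?_⟩
    have h1 : cj g ⁅X, X⁆ = ⁅X, X⁆ := by
      show (⁅X, X⁆).map (MulAut.conj g).toMonoidHom = _
      rw [Subgroup.map_commutator]
      have h2 : X.map (MulAut.conj g).toMonoidHom = X := cj_of_nm (nm_self X) hg
      rw [h2]
    have h3 := conj_mem_cj (g := g) hx
    rwa [h1] at h3
  have hA := ext_nor L A D had F hF X hX ⁅X, X⁆ hnm hne
  refine ext_not_comm L A D had F hF X hX fun x hx y hy => ?_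
  have h1 := hA (Subgroup.commutator_mem_commutator hx hy)
  rwa [commutatorElement_def] at h1

end Pool.Agent.Lib.TGX
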