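/-
TGX A.Rigid. Rigidity of extremal families.
PROOF. Choose `s : Subgroup G → Subgroup G` with `s Z ∈ F'`, `s Z ≤ Z` for `Z ∈ F`. `s` is injective on `F`: if `s Z = s Z' = W`,
`Z ≠ Z'`, then elements of `W ≤ Z` and of `W ≤ Z'` commute (`hF.1.comm`), so `W` is abelian, contradiction to `hF'.nab W`. So
`(F.image s).card = F.card`, `F.image s ⊆ F'`, `F.card ≤ F'.card`. By `hF.2.2 F'`: `F'.card = F.card` and
`∑ X ∈ F, Nat.card X ≤ ∑ X ∈ F', Nat.card X`. So `F.image s = F'` (`Finset.eq_of_subset_of_card_le`), and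
`∑ X ∈ F', Nat.card X = ∑ Z ∈ F, Nat.card (s Z)` (`Finset.sum_image`). As `Nat.card (s Z) ≤ Nat.card Z` for all `Z ∈ F`, equality
holds for every `Z ∈ F` (`Finset.sum_eq_sum_iff_of_le`), so `s Z = Z` (`Subgroup.eq_of_le_of_card_ge`). So `F' = F.image s = F`.
-/
import Pool.Agent.Lib.TGX.A.DefsA

namespace Pool.Agent.Lib.TGX

open Equiv

theorem ext_rigid {G : Type} [Group G] [Finite G] (L D : Subgroup G) (F : Finset (Subgroup G))
    (hF : Ext L D F) (F' : Finset (Subgroup G)) (hF' : CFam L F') (hD : ∀ X ∈ F', X ≤ D)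
    (hs : ∀ Z ∈ F, ∃ W ∈ F', W ≤ Z) : F' = F := by
  classical
  have hch : ∀ Z : Subgroup G, ∃ W : Subgroup G, Z ∈ F → W ∈ F' ∧ W ≤ Z := by
    intro Z
    by_cases h : Z ∈ F
    · obtain ⟨W, h1, h2⟩ := hs Z h
      exact ⟨W, fun _ => ⟨h1, h2⟩⟩
    · exact ⟨⊥, fun h' => absurd h' h⟩
  choose s hs' using hch
  have hinj : Set.InjOn s (F : Set (Subgroup G)) := by
    intro Z hZ Z' hZ' h
    by_contra hne
    have h1 := hs' Z hZ
    have h2 := hs' Z' hZ'
    obtain ⟨x, hx, y, hy, hxy⟩ := hF'.nab (s Z) h1.1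
    exact hxy (hF.1.comm Z hZ Z' hZ' hne x (h1.2 hx) y (h2.2 (h ▸ hy)))
  have hcard : (F.image s).card = F.card := Finset.card_image_of_injOn hinj
  have hsub : F.image s ⊆ F' := by
    intro W hW
    obtain ⟨Z, hZ, rfl⟩ := Finset.mem_image.1 hW
    exact (hs' Z hZ).1
  have hle : F.card ≤ F'.card := hcard ▸ Finset.card_le_card hsub
  rcases hF.2.2 F' hF' hD with h | ⟨h1, h2⟩
  · omega
  · have himg : F.image s = F' := Finset.eq_of_subset_of_card_le hsub (by omega)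
    have hsum : ∑ X ∈ F', Nat.card X = ∑ Z ∈ F, Nat.card (s Z) := by
      rw [← himg, Finset.sum_image hinj]
    have hle' : ∀ Z ∈ F, Nat.card (s Z) ≤ Nat.card Z := fun Z hZ =>
      Nat.card_le_card_of_injective _ (Subgroup.inclusion_injective (hs' Z hZ).2)
    have heq : ∀ Z ∈ F, Nat.card (s Z) = Nat.card Z :=
      (Finset.sum_eq_sum_iff_of_le hle').1
        (le_antisymm (Finset.sum_le_sum hle') (by rw [← hsum]; exact h2))
    have hsid : ∀ Z ∈ F, s Z = Z := fun Z hZ =>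
      Subgroup.eq_of_le_of_card_ge (hs' Z hZ).2 (heq Z hZ).ge
    rw [← himg]
    ext W
    rw [Finset.mem_image]
    constructor
    · rintro ⟨Z, hZ, rfl⟩
      rwa [hsid Z hZ]
    · intro hW
      exact ⟨W, hW, hsid W hW⟩

end Pool.Agent.Lib.TGX
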