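/-
TGX A.Struct. Structure of the groups with (P): assembly of paper 3.1-3.4.
-/
import Pool.Agent.Lib.TGX.A.Fam3
import Pool.Agent.Lib.TGX.A.Base
import Pool.Agent.Lib.TGX.A.ExtEx
import Pool.Agent.Lib.TGX.A.CentF
import Pool.Agent.Lib.TGX.A.Nor
import Pool.Agent.Lib.TGX.A.Faith

namespace Pool.Agent.Lib.TGX

open Equiv

theorem struct_thm {Ω : Type} [Fintype Ω] [Nonempty Ω] (L : Subgroup (Perm Ω)) (hP : PP L) :
    ∃ (A D : Subgroup (Perm Ω)) (F : Finset (Subgroup (Perm Ω))),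
      AD L A D ∧ CFam L F ∧ F.card ≤ 2 * lg (Fintype.card Ω) ∧ (∀ X ∈ F, Mem A D X) ∧
      (∀ d ∈ D, (∀ X ∈ F, ∀ x ∈ X, d * x = x * d) → d ∈ A) ∧
      Nat.card A ≤ Fintype.card Ω ∧
      Nat.card L ≤ 2 ^ (4 * lg (Fintype.card Ω) ^ 4) * Nat.card D := by
  obtain ⟨A, D, had, h1, h2⟩ := exists_AD L hP
  obtain ⟨F, hF⟩ := exists_ext L D
  refine ⟨A, D, F, had, hF.1, fam_card L hP F hF.1, fun X hX => ⟨hF.2.1 X hX, ?_, ?_, ?_⟩, ?_,
    h1, h2⟩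
  · exact ext_perf L A D had F hF X hX
  · exact fun Y hY hne => ext_nor L A D had F hF X hX Y hY hne
  · exact fun ω a ha h => fam_faith L hP F hF.1 X hX ω a ha h
  · exact fun d hd hc => cent_ext L A D had F hF d hd hc

end Pool.Agent.Lib.TGX
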